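import Pool.Agent.MP_231b06_nt.LP.Spec

/-! Annihilators in `ZMod Q` and the sum of the greatest common divisors. -/

set_option autoImplicit false

noncomputable section

namespace Pool.Agent.MP_231b06_nt.LP

open Finset Filter Pool.Agent.MP_35c637_nt.OS
open Pool.Agent.MP_a43263_nt.R2 hiding sg

namespace ANx

/-- at most `g` multiples of `d` among the residues modulo `d * g` -/
theorem mult {Q d g : ℕ} [NeZero Q] (h : Q = d * g) :
    (univ.filter fun v : ZMod Q => d ∣ v.val).card ≤ g := by
  have d0 : 0 < d := Nat.pos_of_ne_zero fun e => NeZero.ne Q (by rw [h, e, zero_mul])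
  refine (card_le_card_of_injOn (t := range g) (fun v => v.val / d) (fun v _ => ?_)
    fun v hv u hu e => ?_).trans (card_range g).le
  · exact mem_coe.2 (mem_range.2 (Nat.div_lt_of_lt_mul (h ▸ ZMod.val_lt v)))
  · have a := (mem_filter.1 (mem_coe.1 hv)).2
    have b := (mem_filter.1 (mem_coe.1 hu)).2
    refine ZMod.val_injective Q ?_
    rw [← Nat.div_mul_cancel a, ← Nat.div_mul_cancel b]
    exact congrArg (· * d) e

end ANx

theorem an : AN := by
  intro Q _
  have Q0 := NeZero.ne Q
  refine ⟨fun w => ?_, ?_⟩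
  · have g0 : 0 < Nat.gcd w.val Q := Nat.gcd_pos_of_pos_right _ (Nat.pos_of_ne_zero Q0)
    refine (card_le_card fun v hv => ?_).trans
      (ANx.mult (d := Q / Nat.gcd w.val Q) (Nat.div_mul_cancel (Nat.gcd_dvd_right _ _)).symm)
    have h : Q ∣ w.val * v.val := by
      rw [← ZMod.natCast_eq_zero_iff]
      simpa using (mem_filter.1 hv).2
    refine mem_filter.2 ⟨mem_univ _, (Nat.coprime_div_gcd_div_gcd g0).symm.dvd_of_dvd_mul_left ?_⟩
    refine Nat.dvd_of_mul_dvd_mul_right g0 ?_
    rwa [Nat.div_mul_cancel (Nat.gcd_dvd_right _ _), mul_right_comm,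
      Nat.div_mul_cancel (Nat.gcd_dvd_left _ _)]
  · calc ∑ s : ZMod Q, (Nat.gcd s.val Q : ℝ)
        ≤ ∑ s : ZMod Q, ∑ d ∈ Q.divisors, if d ∣ s.val then (d : ℝ) else 0 :=
          sum_le_sum fun s _ => by
            have := single_le_sum (f := fun d : ℕ => if d ∣ s.val then (d : ℝ) else 0)
              (fun d _ => by positivity) (Nat.mem_divisors.2 ⟨Nat.gcd_dvd_right s.val Q, Q0⟩)
            rwa [if_pos (Nat.gcd_dvd_left _ _)] at this
      _ = ∑ d ∈ Q.divisors, ((univ.filter fun v : ZMod Q => d ∣ v.val).card : ℝ) * d := by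
          rw [sum_comm]
          exact sum_congr rfl fun d _ => by rw [← sum_filter, sum_const, nsmul_eq_mul]
      _ ≤ ∑ _d ∈ Q.divisors, (Q : ℝ) := sum_le_sum fun d hd => by
          obtain ⟨g, e⟩ := Nat.dvd_of_mem_divisors hd
          have := Nat.mul_le_mul_right d (ANx.mult e)
          rw [mul_comm g, ← e] at this
          exact_mod_cast this
      _ = Q * ta Q := by rw [sum_const, nsmul_eq_mul, mul_comm, ta]

end Pool.Agent.MP_231b06_nt.LP
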