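import Pool.Agent.MP_231b06_nt.LP.Spec

/-! Project LP: primes in a dyadic box of the hyperbola. -/

set_option autoImplicit false

noncomputable section

namespace Pool.Agent.MP_231b06_nt.LP

open Finset Filter Pool.Agent.MP_35c637_nt.OS
open Pool.Agent.MP_a43263_nt.R2 hiding sg

namespace BOXx

theorem tot {Q : ℕ} : (Q.totient : ℝ) * sg Q ≤ Q := by
  have e : (Q.totient : ℝ) = Q * ∏ p ∈ Q.primeFactors, (1 - (p : ℝ)⁻¹) := by
    have := congrArg (fun x : ℚ => (x : ℝ)) (Nat.totient_eq_mul_prod_factors Q)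
    simpa using this
  rw [e, sg, E, mul_assoc, ← prod_mul_distrib]
  refine mul_le_of_le_one_right (Nat.cast_nonneg _) (prod_le_one (fun p hp => ?_) fun p _ => ?_)
  · have : (1 : ℝ) ≤ p := by exact_mod_cast (Nat.prime_of_mem_primeFactors hp).one_le
    exact mul_nonneg (sub_nonneg.2 (inv_le_one_of_one_le₀ this)) (by positivity)
  · rw [one_div]
    nlinarith [sq_nonneg (p : ℝ)⁻¹]

theorem xx {Q : ℕ} (hQ : 0 < Q) (i : ℕ) : XX Q i ≤ Q.totient := by
  have q : (0 : ℝ) < Q := by exact_mod_cast hQ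
  have e : (2 : ℝ) ^ i * (Q / 2 ^ i : ℕ) ≤ Q := by exact_mod_cast Nat.mul_div_le Q (2 ^ i)
  rw [XX, div_le_iff₀ (by positivity)]
  calc (Q.totient : ℝ) * (Q * 2 ^ i) * (Q / 2 ^ i : ℕ)
      = (Q.totient * Q) * (2 ^ i * (Q / 2 ^ i : ℕ)) := by ring
    _ ≤ (Q.totient * Q) * Q := mul_le_mul_of_nonneg_left e (by positivity)
    _ = _ := by ring

theorem rm0 (Q i : ℕ) : 0 ≤ rm Q i := by
  have := Real.log_natCast_nonneg Q
  unfold rm BB AA ta
  positivity

end BOXx

theorem box (h1 : LEV) (h2 : NUM) (h3 : SV) : BOX := by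
  obtain ⟨y0, h4, hs⟩ := h3
  obtain ⟨c, hc, hl⟩ := lowE
  refine ⟨4800 / c + 1, by positivity, ?_⟩
  filter_upwards [h2 y0, eventually_ge_atTop 2] with Q ⟨y, a1, a2, a3, a4⟩ hQ ho i hi
  have q : (0 : ℝ) < Q := by exact_mod_cast (by omega : 0 < Q)
  have lQ : 0 < Real.log Q := Real.log_pos (by exact_mod_cast (by omega : 1 < Q))
  have k := hs y a1 (ℕ × ℕ) (BX Q i) Prod.fst ((pri 3 y).filter fun p => ¬p ∣ Q) (XX Q i) (rm Q i)
    (filter_subset _ _) (by unfold XX; positivity) (BOXx.rm0 Q i) fun A hA _ =>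
      h1 Q ho i _ (prod_pos fun p hp => (Mer.mem_pri.1 (mem_filter.1 (hA hp)).1).2.pos)
        (Nat.Coprime.prod_left fun p hp =>
          (Nat.Prime.coprime_iff_not_dvd (Mer.mem_pri.1 (mem_filter.1 (hA hp)).1).2).2
            (mem_filter.1 (hA hp)).2)
  refine le_trans ?_ (k.trans ?_)
  · rw [Nat.cast_le]
    refine card_le_card fun x hx => ?_
    obtain ⟨b1, b2⟩ := mem_filter.1 hx
    refine mem_filter.2 ⟨b1, fun p hp h => ?_⟩
    obtain ⟨⟨-, c2⟩, c3⟩ := Mer.mem_pri.1 (mem_filter.1 hp).1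
    have d1 := (mem_Ioc.1 (mem_product.1 (mem_filter.1 b1).1).1).1
    have d2 : Q ≤ Q * 2 ^ i := Nat.le_mul_of_pos_right _ (by positivity)
    have d3 := (Nat.prime_dvd_prime_iff_eq c3 b2).1 h
    omega
  · have e1 := (hl 3 y Q (by norm_num) (by omega) (by omega)).trans (mul_le_mul_of_nonneg_right log3
      (mul_pos (one_pos.trans_le (one_le_sg _)) (E_pos _)).le)
    have p1 := E_pos ((pri 3 y).filter fun p => ¬p ∣ Q)
    have e2 := BOXx.xx (by omega : 0 < Q) i
    have e3 := BOXx.tot (Q := Q)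
    have t0 : (0 : ℝ) ≤ Q.totient := Nat.cast_nonneg _
    rw [add_mul, add_div, one_mul]
    refine add_le_add ?_ (a4 i hi)
    rw [div_le_div_iff₀ p1 lQ]
    generalize E ((pri 3 y).filter fun p => ¬p ∣ Q) = w at e1 p1 ⊢
    have e4 : c * Real.log Q ≤ 2400 * (sg Q * w) := by nlinarith
    have e5 : Real.log Q ≤ 2400 / c * (sg Q * w) := by
      rw [div_mul_eq_mul_div, le_div_iff₀ hc]
      linarith
    calc 2 * XX Q i * Real.log Q ≤ 2 * Q.totient * (2400 / c * (sg Q * w)) :=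
          mul_le_mul (by linarith) e5 lQ.le (by positivity)
      _ = 4800 / c * (Q.totient * sg Q) * w := by ring
      _ ≤ 4800 / c * Q * w := by gcongr

end Pool.Agent.MP_231b06_nt.LP
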