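import Pool.Agent.MP_231b06_nt.LP.Spec

/-! Project LP, row CHB: the Chebyshev step. -/

set_option autoImplicit false

noncomputable section

namespace Pool.Agent.MP_231b06_nt.LP

open Finset Filter Pool.Agent.MP_35c637_nt.OS
open Pool.Agent.MP_a43263_nt.R2 hiding sg
open scoped ArithmeticFunction.vonMangoldt

namespace CHBx

theorem cnt {Q e : ℕ} (hQ : 1 ≤ Q) (_he : 1 ≤ e) (a b : ℕ) :
    ((Ioc a b).filter fun t => e ∣ Q * t - 1).card ≤ (b - a) / e + 1 := by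
  rw [← card_range ((b - a) / e + 1)]
  refine card_le_card_of_injOn (fun t => (t - a - 1) / e) ?_ ?_
  · intro t ht
    have h := mem_Ioc.1 (mem_filter.1 (mem_coe.1 ht)).1
    exact mem_coe.2 (mem_range.2 (Nat.lt_succ_of_le (Nat.div_le_div_right (by omega))))
  · intro t ht s hs hts
    obtain ⟨t1, t2⟩ := mem_filter.1 (mem_coe.1 ht)
    obtain ⟨s1, s2⟩ := mem_filter.1 (mem_coe.1 hs)
    have t3 := mem_Ioc.1 t1
    have s3 := mem_Ioc.1 s1
    have t4 : 1 ≡ Q * t [MOD e] :=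
      (Nat.modEq_iff_dvd' (Nat.mul_pos hQ (by omega))).2 t2
    have s4 : 1 ≡ Q * s [MOD e] :=
      (Nat.modEq_iff_dvd' (Nat.mul_pos hQ (by omega))).2 s2
    have h1 : t ≡ s [MOD e] := by
      have u := s4.mul_left t
      have v := t4.mul_left s
      rw [mul_one] at u v
      rw [show t * (Q * s) = s * (Q * t) by ring] at u
      exact u.trans v.symm
    have h2 : t - a - 1 ≡ s - a - 1 [MOD e] := by
      refine Nat.ModEq.add_right_cancel' (a + 1) ?_
      rwa [show t - a - 1 + (a + 1) = t by omega, show s - a - 1 + (a + 1) = s by omega]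
    have h3 : t - a - 1 = s - a - 1 := by
      have h4 : (t - a - 1) / e = (s - a - 1) / e := hts
      rw [← Nat.div_add_mod (t - a - 1) e, ← Nat.div_add_mod (s - a - 1) e, h4,
        show (t - a - 1) % e = (s - a - 1) % e from h2]
    omega

theorem swap (S T : Finset ℕ) (A : ℕ → ℕ) :
    ∑ t ∈ T, ∑ e ∈ S.filter (fun e => e ∣ A t), Λ e =
      ∑ e ∈ S, Λ e * ((T.filter fun t => e ∣ A t).card : ℝ) := by
  simp_rw [sum_filter]
  rw [sum_comm]
  refine sum_congr rfl fun e _ => ?_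
  rw [← sum_filter, sum_const, nsmul_eq_mul, mul_comm]

theorem un (S T : Finset ℕ) : ∑ e ∈ S ∪ T, Λ e ≤ ∑ e ∈ S, Λ e + ∑ e ∈ T, Λ e := by
  rw [← sum_union_inter]
  exact le_add_of_nonneg_right (sum_nonneg fun _ _ => ArithmeticFunction.vonMangoldt_nonneg)

theorem split {Q A : ℕ} (hA : A ≤ Q ^ 2) :
    Real.log A ≤ ∑ e ∈ (Ioc 0 Q).filter (fun e => e ∣ A), Λ e +
      ∑ e ∈ ((Ioc Q (Q ^ 2)).filter fun e => ¬ e.Prime).filter (fun e => e ∣ A), Λ e +
      ∑ p ∈ A.primeFactors.filter (fun p => Q < p), Real.log p := by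
  have h3 : ∑ p ∈ A.primeFactors.filter (fun p => Q < p), Real.log p =
      ∑ p ∈ A.primeFactors.filter (fun p => Q < p), Λ p :=
    sum_congr rfl fun p hp => (ArithmeticFunction.vonMangoldt_apply_prime
      (Nat.prime_of_mem_primeFactors (mem_filter.1 hp).1)).symm
  rw [h3, ← ArithmeticFunction.vonMangoldt_sum]
  refine le_trans ?_ (add_le_add (un _ _) le_rfl)
  refine le_trans ?_ (un _ _)
  refine sum_le_sum_of_subset_of_nonneg ?_ fun _ _ _ => ArithmeticFunction.vonMangoldt_nonneg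
  intro e he
  obtain ⟨h1, h2⟩ := Nat.mem_divisors.1 he
  have h4 : 0 < e := Nat.pos_of_mem_divisors he
  have h5 : e ≤ A := Nat.le_of_dvd (Nat.pos_of_ne_zero h2) h1
  simp only [mem_union, mem_filter, mem_Ioc, Nat.mem_primeFactors]
  by_cases c1 : e ≤ Q
  · exact Or.inl (Or.inl ⟨⟨h4, c1⟩, h1⟩)
  by_cases c2 : e.Prime
  · exact Or.inr ⟨⟨c2, h1, h2⟩, by omega⟩
  · exact Or.inl (Or.inr ⟨⟨⟨by omega, by omega⟩, c2⟩, h1⟩)

theorem low {Q t : ℕ} (hQ : 100 ≤ Q) (ht : t ∈ TT Q) :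
    2 * Real.log Q - Real.log 100 ≤ Real.log (Q * t - 1 : ℕ) ∧ Q * t - 1 ≤ Q ^ 2 := by
  obtain ⟨t1, t2⟩ := mem_Ioc.1 ht
  have a1 : Q + 1 ≤ 50 * t := by omega
  have a2 : Q * (Q + 1) ≤ Q * (50 * t) := Nat.mul_le_mul_left Q a1
  have a3 : Q * t ≤ Q * Q := Nat.mul_le_mul_left Q (by omega)
  have a4 : 100 * 100 ≤ Q * Q := Nat.mul_le_mul hQ hQ
  have a5 : Q * Q ≤ 100 * (Q * t - 1) := by
    have e1 : Q * (Q + 1) = Q * Q + Q := by ring
    have e2 : Q * (50 * t) = 50 * (Q * t) := by ring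
    omega
  refine ⟨?_, by rw [sq]; omega⟩
  have b0 : (0 : ℝ) < Q := by exact_mod_cast (show 0 < Q by omega)
  have b1 : (0 : ℝ) < (Q * t - 1 : ℕ) := by exact_mod_cast (show 0 < Q * t - 1 by omega)
  have b2 : (Q : ℝ) * Q ≤ 100 * (Q * t - 1 : ℕ) := by exact_mod_cast a5
  have b3 := Real.log_le_log (mul_pos b0 b0) b2
  rw [Real.log_mul b0.ne' b0.ne', Real.log_mul (by norm_num) b1.ne'] at b3
  linarith

end CHBx

open CHBx in
theorem chb : CHB := by
  obtain ⟨C1, hC1⟩ := Chebyshev.psi_sub_theta_le_mul_sqrt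
  refine ⟨Real.log 100 + 6 + (Real.log 4 + 4) + C1, fun Q hQ => ?_⟩
  have hQ0 : (0 : ℝ) < Q := by exact_mod_cast (show 0 < Q by omega)
  have hN : (TT Q).card = Q / 10 - Q / 50 := by rw [TT, Nat.card_Ioc]
  have hNQ : ((TT Q).card : ℝ) ≤ Q := by exact_mod_cast (show (TT Q).card ≤ Q by omega)
  have hN0 : (0 : ℝ) ≤ (TT Q).card := Nat.cast_nonneg _
  have h1 : ((TT Q).card : ℝ) * (2 * Real.log Q - Real.log 100) ≤
      ∑ t ∈ TT Q, Real.log (Q * t - 1 : ℕ) := by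
    rw [← nsmul_eq_mul, ← sum_const]
    exact sum_le_sum fun t ht => (low hQ ht).1
  have h2 := sum_le_sum fun t (ht : t ∈ TT Q) => split (low hQ ht).2
  rw [sum_add_distrib, sum_add_distrib, swap, swap] at h2
  have h3 : ∑ e ∈ Ioc 0 Q, Λ e * (((TT Q).filter fun t => e ∣ Q * t - 1).card : ℝ) ≤
      (TT Q).card * ∑ e ∈ Ioc 0 Q, Λ e / (e : ℝ) + ∑ e ∈ Ioc 0 Q, Λ e := by
    rw [mul_sum, ← sum_add_distrib]
    refine sum_le_sum fun e he => ?_
    have c1 := cnt (Q := Q) (by omega) (mem_Ioc.1 he).1 (Q / 50) (Q / 10)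
    rw [← hN] at c1
    have c2 : (((TT Q).filter fun t => e ∣ Q * t - 1).card : ℝ) ≤
        ((TT Q).card / e : ℕ) + 1 := by exact_mod_cast c1
    have c3 : (((TT Q).card / e : ℕ) : ℝ) ≤ ((TT Q).card : ℝ) / e := Nat.cast_div_le
    calc _ ≤ Λ e * (((TT Q).card : ℝ) / e + 1) :=
          mul_le_mul_of_nonneg_left (by linarith) ArithmeticFunction.vonMangoldt_nonneg
      _ = _ := by ring
  have h4 := mul_le_mul_of_nonneg_left (MP_db1c88_nt.st.mertens_le Q (by omega)) hN0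
  have h5 : ∑ e ∈ Ioc 0 Q, Λ e ≤ (Real.log 4 + 4) * Q := by
    have := Chebyshev.psi_le_const_mul_self hQ0.le
    rwa [Chebyshev.psi, Nat.floor_natCast] at this
  have h6 : ∑ e ∈ (Ioc Q (Q ^ 2)).filter fun e => ¬ e.Prime,
      Λ e * (((TT Q).filter fun t => e ∣ Q * t - 1).card : ℝ) ≤ C1 * Q := by
    have d1 := hC1 ((Q ^ 2 : ℕ) : ℝ)
    rw [Chebyshev.psi_sub_theta_eq_sum_not_prime, Nat.floor_natCast, Nat.cast_pow,
      Real.sqrt_sq hQ0.le] at d1
    refine le_trans ?_ d1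
    refine le_trans (sum_le_sum fun e he => ?_) (sum_le_sum_of_subset_of_nonneg
      (filter_subset_filter _ (Ioc_subset_Ioc_left (Nat.zero_le Q)))
      fun _ _ _ => ArithmeticFunction.vonMangoldt_nonneg)
    have e1 := (mem_Ioc.1 (mem_filter.1 he).1).1
    have c1 := cnt (Q := Q) (e := e) (by omega) (by omega) (Q / 50) (Q / 10)
    rw [Nat.div_eq_of_lt (show Q / 10 - Q / 50 < e by omega)] at c1
    have c2 : (((TT Q).filter fun t => e ∣ Q * t - 1).card : ℝ) ≤ 1 := by exact_mod_cast c1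
    exact mul_le_of_le_one_right ArithmeticFunction.vonMangoldt_nonneg c2
  have h7 : 0 ≤ Real.log 100 := Real.log_nonneg (by norm_num)
  have h8 := mul_le_mul_of_nonneg_left hNQ (show 0 ≤ Real.log 100 + 6 by linarith)
  linarith

end Pool.Agent.MP_231b06_nt.LP
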