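import Pool.Agent.MP_231b06_nt.LP.Spec

/-! The number of quadruples in the fourth moment. -/

set_option autoImplicit false

noncomputable section

namespace Pool.Agent.MP_231b06_nt.LP

open Finset Filter Pool.Agent.MP_35c637_nt.OS
open Pool.Agent.MP_a43263_nt.R2 hiding sg

namespace CNTx

theorem zero {R : Type} [CommRing R] {a b c d : Rˣ} (h1 : (a : R) + b = c + d)
    (h2 : ((a⁻¹ : Rˣ) : R) + (b⁻¹ : Rˣ) = (c⁻¹ : Rˣ) + (d⁻¹ : Rˣ)) :
    ((a : R) + b) * (c - a) * (c - b) = 0 := by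
  have e1 : (a : R) * b * c * d * ((a⁻¹ : Rˣ) + (b⁻¹ : Rˣ)) = (a + b) * (c * d) := by
    linear_combination ((b : R) * c * d) * a.mul_inv + ((a : R) * c * d) * b.mul_inv
  have e2 : (a : R) * b * c * d * ((c⁻¹ : Rˣ) + (d⁻¹ : Rˣ)) = (c + d) * (a * b) := by
    linear_combination ((a : R) * b * d) * c.mul_inv + ((a : R) * b * c) * d.mul_inv
  rw [h2, e2] at e1
  linear_combination e1 + ((a : R) * b - (a + b) * c) * h1

theorem gc {Q : ℕ} [NeZero Q] (s u : ZMod Q) :
    Nat.gcd (s * u).val Q ≤ Nat.gcd s.val Q * Nat.gcd u.val Q := by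
  have q := Nat.pos_of_ne_zero (NeZero.ne Q)
  rw [ZMod.val_mul, ← Nat.gcd_rec, Nat.gcd_comm s.val, Nat.gcd_comm u.val]
  exact Nat.le_of_dvd (Nat.mul_pos (Nat.gcd_pos_of_pos_left _ q) (Nat.gcd_pos_of_pos_left _ q))
    (Nat.gcd_mul_right_dvd_mul_gcd _ _ _)

end CNTx

theorem cnt (h : AN) : CNT := by
  intro Q _ hQ
  obtain ⟨h1, h2⟩ := h Q
  have two : IsUnit (2 : ZMod Q) := by
    have := (ZMod.isUnit_iff_coprime 2 Q).2 (Nat.coprime_two_left.2 hQ)
    simpa using this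
  have a1 : (QD Q).card ≤ (univ.filter fun y : ZMod Q × ZMod Q × ZMod Q =>
      y.1 * y.2.1 * y.2.2 = 0).card := by
    refine card_le_card_of_injOn (fun x => ((x.1 : ZMod Q) + x.2.1, (x.2.2.1 : ZMod Q) - x.1,
      (x.2.2.1 : ZMod Q) - x.2.1)) (fun x hx => ?_) fun x hx y hy e => ?_
    · have := (mem_filter.1 hx).2
      exact mem_filter.2 ⟨mem_univ _, CNTx.zero this.1 this.2⟩
    · have p := (mem_filter.1 hx).2.1
      have q := (mem_filter.1 hy).2.1
      simp only [Prod.mk.injEq] at e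
      obtain ⟨e1, e2, e3⟩ := e
      have b : (x.2.1 : ZMod Q) = y.2.1 := two.mul_left_cancel (by linear_combination e1 + e2 - e3)
      exact Prod.ext (Units.ext (by linear_combination e1 - b)) (Prod.ext (Units.ext b)
        (Prod.ext (Units.ext (by linear_combination e3 + b))
          (Units.ext (by linear_combination q - p + e1 - e3 - b))))
  have a2 : (univ.filter fun y : ZMod Q × ZMod Q × ZMod Q => y.1 * y.2.1 * y.2.2 = 0).card ≤
      ∑ s : ZMod Q, ∑ u : ZMod Q, Nat.gcd s.val Q * Nat.gcd u.val Q := by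
    rw [card_filter, Fintype.sum_prod_type]
    refine sum_le_sum fun s _ => ?_
    rw [Fintype.sum_prod_type]
    refine sum_le_sum fun u _ => le_trans ?_ ((h1 (s * u)).trans (CNTx.gc s u))
    rw [card_filter]
  have a3 : ((QD Q).card : ℝ) ≤ (∑ s : ZMod Q, (Nat.gcd s.val Q : ℝ)) ^ 2 := by
    rw [sq, sum_mul_sum]
    exact_mod_cast a1.trans a2
  rw [← mul_pow]
  exact a3.trans (pow_le_pow_left₀ (by positivity) h2 2)

end Pool.Agent.MP_231b06_nt.LP
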