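import Pool.Agent.MP_231b06_nt.LP.Spec

/-! Row FT: the Fourier transform of an interval, weighted by greatest common divisors. -/

set_option autoImplicit false

noncomputable section

namespace Pool.Agent.MP_231b06_nt.LP

open Finset Filter Pool.Agent.MP_35c637_nt.OS
open Pool.Agent.MP_a43263_nt.R2 hiding sg

namespace FTx

theorem sinlb {x : ℝ} (h0 : 0 ≤ x) (h1 : x ≤ 1) : 2 * (x * (1 - x)) ≤ Real.sin (Real.pi * x) := by
  have key : ∀ y : ℝ, 0 ≤ y → y ≤ 1 / 2 → 2 * y ≤ Real.sin (Real.pi * y) := fun y a b => by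
    have := Real.mul_le_sin (x := Real.pi * y) (by positivity) (by nlinarith [Real.pi_pos])
    rwa [show 2 / Real.pi * (Real.pi * y) = 2 * y by field_simp] at this
  rcases le_total x (1 / 2) with h | h
  · nlinarith [key x h0 h]
  · have := key (1 - x) (by linarith) (by linarith)
    rw [mul_sub, mul_sub Real.pi, mul_one Real.pi, Real.sin_pi_sub] at this
    nlinarith

theorem ff (Q : ℕ) [NeZero Q] (s L : ℕ) (h : ZMod Q) (h0 : h ≠ 0) :
    ‖FF Q s L h‖ ≤ Q / 2 * (1 / (h.val : ℝ) + 1 / ((Q : ℝ) - h.val)) := by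
  have n0 : (0 : ℝ) < h.val := by exact_mod_cast ZMod.val_pos.2 h0
  have n1 : (h.val : ℝ) < Q := by exact_mod_cast ZMod.val_lt h
  have q0 : (0 : ℝ) < Q := n0.trans n1
  have e1 : FF Q s L h * (ZMod.stdAddChar (-h) - 1) =
      ZMod.stdAddChar (-(h * ((s + L : ℕ) : ZMod Q))) -
        ZMod.stdAddChar (-(h * ((s + 0 : ℕ) : ZMod Q))) := by
    rw [FF, sum_mul, ← sum_range_sub fun i => ZMod.stdAddChar (-(h * ((s + i : ℕ) : ZMod Q)))]
    refine sum_congr rfl fun i _ => ?_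
    rw [mul_sub, mul_one, ← AddChar.map_add_eq_mul]
    congr 2
    push_cast
    ring
  have e2 : ‖FF Q s L h‖ * ‖ZMod.stdAddChar (-h) - 1‖ ≤ 2 := by
    rw [← norm_mul, e1]
    refine (norm_sub_le _ _).trans ?_
    rw [ZMod.stdAddChar_apply, ZMod.stdAddChar_apply, Circle.norm_coe, Circle.norm_coe]
    norm_num
  have e3 : ZMod.stdAddChar (-h) =
      Complex.exp (Complex.I * ((-(2 * (Real.pi * (h.val / Q))) : ℝ) : ℂ)) := by
    have := ZMod.stdAddChar_coe (N := Q) (-(h.val : ℤ))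
    rw [Int.cast_neg, Int.cast_natCast, ZMod.natCast_zmod_val] at this
    rw [this]
    congr 1
    push_cast
    ring
  have x0 : (0 : ℝ) < h.val / Q := by positivity
  have x1 : (h.val : ℝ) / Q < 1 := (div_lt_one q0).2 n1
  have e4 := sinlb x0.le x1.le
  have x2 : 0 < (h.val : ℝ) / Q * (1 - h.val / Q) := mul_pos x0 (by linarith)
  rw [e3, Complex.norm_exp_I_mul_ofReal_sub_one, show -(2 * (Real.pi * ((h.val : ℝ) / Q))) / 2 =
    -(Real.pi * (h.val / Q)) by ring, Real.sin_neg, mul_neg, norm_neg,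
    Real.norm_of_nonneg (by linarith)] at e2
  have d0 : (Q : ℝ) - h.val ≠ 0 := by linarith
  rw [show (Q : ℝ) / 2 * (1 / (h.val : ℝ) + 1 / ((Q : ℝ) - h.val)) =
    1 / (2 * ((h.val : ℝ) / Q * (1 - h.val / Q))) by field_simp; ring, le_div_iff₀ (by linarith)]
  nlinarith [norm_nonneg (FF Q s L h)]

theorem gs (Q : ℕ) (hQ : Q ≠ 0) : ∑ n ∈ Ico 1 Q, (Nat.gcd n Q : ℝ) / n ≤ AA Q := by
  have e1 : ∀ n ∈ Ico 1 Q, (Nat.gcd n Q : ℝ) / n ≤
      ∑ d ∈ Q.divisors, if d ∣ n then (d : ℝ) / n else 0 := fun n _ => by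
    refine le_trans (le_of_eq ?_) (single_le_sum (f := fun d : ℕ => if d ∣ n then (d : ℝ) / n else 0)
      (fun d _ => by positivity) (Nat.mem_divisors.2 ⟨Nat.gcd_dvd_right n Q, hQ⟩))
    rw [if_pos (Nat.gcd_dvd_left n Q)]
  refine (sum_le_sum e1).trans ?_
  rw [sum_comm, AA, ta, ← nsmul_eq_mul]
  refine sum_le_card_nsmul _ _ _ fun d hd => ?_
  have d0 : 0 < d := Nat.pos_of_mem_divisors hd
  rw [← sum_filter]
  refine (sum_le_sum_of_subset_of_nonneg (t := (Icc 1 Q).image (d * ·)) (fun n hn => ?_)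
    fun _ _ _ => by positivity).trans ?_
  · obtain ⟨h1, j, rfl⟩ := mem_filter.1 hn
    obtain ⟨h2, h3⟩ := mem_Ico.1 h1
    exact mem_image_of_mem _ (mem_Icc.2 ⟨Nat.pos_of_mul_pos_left h2, by nlinarith⟩)
  · rw [sum_image fun a _ b _ h => Nat.eq_of_mul_eq_mul_left d0 h]
    refine le_trans (le_of_eq ?_) (harmonic_le_one_add_log Q)
    rw [harmonic_eq_sum_Icc]
    push_cast
    refine sum_congr rfl fun j _ => ?_
    have : (d : ℝ) ≠ 0 := by positivity
    field_simp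

end FTx

theorem ft : FT := by
  intro Q _ s L
  refine (sum_le_sum fun h hh => mul_le_mul_of_nonneg_right
    (FTx.ff Q s L h (ne_of_mem_erase hh)) (Nat.cast_nonneg _)).trans ?_
  have e1 : ∑ h ∈ (univ : Finset (ZMod Q)).erase 0,
      (Q : ℝ) / 2 * (1 / (h.val : ℝ) + 1 / ((Q : ℝ) - h.val)) * Nat.gcd h.val Q =
      ∑ n ∈ Ico 1 Q, (Q : ℝ) / 2 * (1 / (n : ℝ) + 1 / ((Q : ℝ) - n)) * Nat.gcd n Q := by
    refine sum_nbij' ZMod.val (fun n => (n : ZMod Q)) (fun h hh => ?_) (fun n hn => ?_)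
      (fun h _ => ZMod.natCast_zmod_val h) (fun n hn => ZMod.val_cast_of_lt (mem_Ico.1 hn).2)
      fun _ _ => rfl
    · exact mem_Ico.2 ⟨ZMod.val_pos.2 (ne_of_mem_erase hh), ZMod.val_lt h⟩
    · refine mem_erase.2 ⟨ZMod.val_pos.1 ?_, mem_univ _⟩
      rw [ZMod.val_cast_of_lt (mem_Ico.1 hn).2]
      exact (mem_Ico.1 hn).1
  have e2 : ∑ n ∈ Ico 1 Q, (Nat.gcd n Q : ℝ) / ((Q : ℝ) - n) =
      ∑ n ∈ Ico 1 Q, (Nat.gcd n Q : ℝ) / n := by
    refine sum_nbij' (Q - ·) (Q - ·) (fun n hn => ?_) (fun n hn => ?_) (fun n hn => ?_)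
      (fun n hn => ?_) fun n hn => ?_ <;> rw [mem_Ico] at *
    · omega
    · omega
    · omega
    · omega
    · rw [Nat.gcd_self_sub_left hn.2.le, Nat.cast_sub hn.2.le]
  have e3 := FTx.gs Q (NeZero.ne Q)
  rw [e1, sum_congr rfl (g := fun n : ℕ => (Q : ℝ) / 2 * ((Nat.gcd n Q : ℝ) / n +
    (Nat.gcd n Q : ℝ) / ((Q : ℝ) - n))) fun n _ => by ring, ← mul_sum, sum_add_distrib, e2]
  nlinarith [Nat.cast_nonneg (α := ℝ) Q]

end Pool.Agent.MP_231b06_nt.LP
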