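import Pool.Agent.MP_231b06_nt.LP.Spec

/-! Project LP: a positive proportion has a large prime factor. -/

set_option autoImplicit false

noncomputable section

namespace Pool.Agent.MP_231b06_nt.LP

open Finset Filter Pool.Agent.MP_35c637_nt.OS
open Pool.Agent.MP_a43263_nt.R2 hiding sg

namespace GENx

theorem sum_log {m Q : ℕ} (_hQ : 1 ≤ Q) (h : m ≤ Q ^ 2) (S : Finset ℕ) (hS : S ⊆ m.primeFactors) :
    ∑ p ∈ S, Real.log p ≤ 2 * Real.log Q := by
  have h0 : (0 : ℝ) ≤ Real.log Q := Real.log_natCast_nonneg Q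
  rcases Nat.eq_zero_or_pos m with rfl | hm
  · rw [Nat.primeFactors_zero, subset_empty] at hS
    rw [hS, sum_empty]
    linarith
  have h1 : ∀ p ∈ S, 0 < p := fun p hp => (Nat.prime_of_mem_primeFactors (hS hp)).pos
  have h2 : ∏ p ∈ S, p ≤ Q ^ 2 := (Nat.le_of_dvd hm
    ((prod_dvd_prod_of_subset _ _ _ hS).trans (Nat.prod_primeFactors_dvd m))).trans h
  rw [← Real.log_prod fun p hp => by exact_mod_cast (h1 p hp).ne']
  have h3 : (2 : ℝ) * Real.log Q = Real.log ((Q : ℝ) ^ 2) := by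
    rw [Real.log_pow]
    norm_num
  rw [h3]
  refine Real.log_le_log (prod_pos fun p hp => by exact_mod_cast h1 p hp) ?_
  have h4 := (Nat.cast_le (α := ℝ)).2 h2
  push_cast at h4
  exact h4

theorem one {Q K I t : ℕ} (hQ : 1 ≤ Q) (hI : Q < 2 ^ (I * K)) (ht : t ∈ TT Q) :
    ∑ p ∈ (Q * t - 1).primeFactors.filter (fun p => Q < p), Real.log p ≤
      ∑ p ∈ (Q * t - 1).primeFactors.filter (fun p => Q < p ∧ p ≤ Q * 2 ^ I), Real.log p +
        if ((Q * t - 1).primeFactors.filter fun p => Q ^ (K + 1) < p ^ K).Nonempty then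
          2 * Real.log Q else 0 := by
  rw [← sum_filter_add_sum_filter_not _ (fun p => p ≤ Q * 2 ^ I), filter_filter]
  refine add_le_add le_rfl ?_
  split_ifs with h
  · refine sum_log hQ ?_ _ ((filter_subset _ _).trans (filter_subset _ _))
    have h1 : t ≤ Q := (mem_Ioc.1 ht).2.trans (Nat.div_le_self _ _)
    rw [sq]
    exact (Nat.sub_le _ _).trans (Nat.mul_le_mul_left _ h1)
  · refine (sum_eq_zero fun p hp => (h ⟨p, ?_⟩).elim).le
    obtain ⟨h1, h2⟩ := mem_filter.1 hp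
    refine mem_filter.2 ⟨(mem_filter.1 h1).1, ?_⟩
    calc Q ^ (K + 1) = Q ^ K * Q := pow_succ _ _
      _ < Q ^ K * 2 ^ (I * K) := Nat.mul_lt_mul_of_pos_left hI (by positivity)
      _ = (Q * 2 ^ I) ^ K := by rw [mul_pow, pow_mul]
      _ ≤ p ^ K := Nat.pow_le_pow_left (not_le.1 h2).le K

end GENx

theorem gen (h1 : CHB) (h2 : MID) : GEN := by
  obtain ⟨C, hC⟩ := h1
  obtain ⟨D, hD0, hD⟩ := h2
  obtain ⟨K, hK, hKD⟩ : ∃ K : ℕ, 40 ≤ K ∧ 52 * D ≤ K :=
    ⟨max 40 ⌈52 * D⌉₊, le_max_left _ _,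
      (Nat.le_ceil _).trans (by exact_mod_cast le_max_right _ _)⟩
  have hl : ∀ᶠ Q : ℕ in atTop, max (52 * (C + D)) 1 ≤ Real.log Q :=
    (Real.tendsto_log_atTop.comp tendsto_natCast_atTop_atTop).eventually_ge_atTop _
  refine ⟨K, 1 / 104, by omega, by norm_num, ?_⟩
  filter_upwards [hD, hl, eventually_ge_atTop (2 ^ 40)] with Q hD hl hQ ho
  have l1 : 52 * (C + D) ≤ Real.log Q := (le_max_left _ _).trans hl
  have l2 : 1 ≤ Real.log Q := (le_max_right _ _).trans hl
  have q0 : Q ≠ 0 := by omega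
  have q1 : (0 : ℝ) < Q := by positivity
  obtain ⟨L, hL⟩ : ∃ L, L = Nat.log 2 Q := ⟨_, rfl⟩
  have a1 : 40 ≤ L := hL ▸ Nat.le_log_of_pow_le (by norm_num) hQ
  have a2 : 2 ^ L ≤ Q := hL ▸ Nat.pow_log_le_self 2 q0
  have a3 : Q < 2 ^ (L + 1) := hL ▸ Nat.lt_pow_succ_log_self (by norm_num) Q
  have a4 : L < (L / K + 1) * K := by
    rw [mul_comm]
    exact Nat.lt_mul_div_succ L (by omega)
  have a5 : L / K ≤ L / 40 := Nat.div_le_div_left hK (by norm_num)
  have a6 : (2 ^ (L / K + 1)) ^ 20 ≤ Q := by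
    rw [← pow_mul]
    exact (Nat.pow_le_pow_right (by norm_num) (by omega)).trans a2
  have a7 : (L : ℝ) ≤ 2 * Real.log Q := by
    have b1 : Real.log ((2 : ℝ) ^ L) ≤ Real.log Q :=
      Real.log_le_log (by positivity) (by exact_mod_cast a2)
    rw [Real.log_pow] at b1
    have b2 := Real.log_two_gt_d9
    have b3 : (0 : ℝ) ≤ L := by positivity
    nlinarith
  have a8 : D * (L / K + 1 : ℕ) ≤ Real.log Q / 26 + D := by
    have b1 : ((L / K : ℕ) : ℝ) * K ≤ L := by exact_mod_cast Nat.div_mul_le_self L K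
    have b2 : (0 : ℝ) ≤ (L / K : ℕ) := by positivity
    have b3 := mul_le_mul_of_nonneg_left hKD b2
    rw [Nat.cast_add, Nat.cast_one]
    linarith
  have a9 : (Q : ℝ) ≤ 13 * (TT Q).card := by
    have : Q ≤ 13 * (TT Q).card := by
      rw [TT, Nat.card_Ioc]
      omega
    exact_mod_cast this
  have b1 := (hC Q (by omega)).trans (sum_le_sum fun t ht => GENx.one (K := K) (I := L / K + 1)
    (by omega) (a3.trans_le (Nat.pow_le_pow_right (by norm_num) a4)) ht)
  rw [sum_add_distrib, ← sum_filter, sum_const, nsmul_eq_mul] at b1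
  have b2 := hD ho _ a6
  have b3 := mul_le_mul_of_nonneg_right a8 q1.le
  have b4 := mul_le_mul_of_nonneg_right a9 (zero_le_one.trans l2)
  have b5 := mul_le_mul_of_nonneg_right l1 q1.le
  refine le_of_mul_le_mul_right ?_ (zero_lt_one.trans_le l2)
  unfold GD
  linarith

end Pool.Agent.MP_231b06_nt.LP
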