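import Pool.Agent.MP_231b06_nt.LP.Spec

/-! Project LP, row HYP: points of a modular hyperbola in a box. -/

set_option autoImplicit false

noncomputable section

namespace Pool.Agent.MP_231b06_nt.LP

open Finset Filter Pool.Agent.MP_35c637_nt.OS
open Pool.Agent.MP_a43263_nt.R2 hiding sg

namespace HYPx

variable {Q : ℕ} [NeZero Q]

theorem orth (z : ZMod Q) :
    ∑ h : ZMod Q, ZMod.stdAddChar (h * z) = if z = 0 then (Q : ℂ) else 0 := by
  rw [AddChar.sum_mulShift z (ZMod.isPrimitive_stdAddChar Q), ZMod.card]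
  split_ifs <;> simp

theorem pt (c : (ZMod Q)ˣ) (y z : ZMod Q) :
    ∑ h : ZMod Q, ∑ k : ZMod Q, ZMod.stdAddChar (-(h * y)) * ZMod.stdAddChar (-(k * z)) *
      KS Q h (k * c) = if y * z = c then (Q : ℂ) ^ 2 else 0 := by
  have e : ∑ h : ZMod Q, ∑ k : ZMod Q, ZMod.stdAddChar (-(h * y)) * ZMod.stdAddChar (-(k * z)) *
      KS Q h (k * c) = ∑ x : (ZMod Q)ˣ, (∑ h : ZMod Q, ZMod.stdAddChar (h * ((x : ZMod Q) - y))) *
        ∑ k : ZMod Q, ZMod.stdAddChar (k * ((c : ZMod Q) * ((x⁻¹ : (ZMod Q)ˣ) : ZMod Q) - z)) := by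
    simp only [sum_mul_sum]
    rw [sum_comm (s := (univ : Finset (ZMod Q)ˣ))]
    refine sum_congr rfl fun h _ => ?_
    rw [sum_comm (s := (univ : Finset (ZMod Q)ˣ))]
    refine sum_congr rfl fun k _ => ?_
    rw [KS, mul_sum]
    refine sum_congr rfl fun x _ => ?_
    simp only [← AddChar.map_add_eq_mul]
    congr 1
    ring
  rw [e]
  simp only [orth, sub_eq_zero]
  split_ifs with h
  · obtain ⟨u, rfl⟩ : IsUnit y := isUnit_of_mul_isUnit_left (h ▸ c.isUnit)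
    rw [sum_eq_single u (fun x _ hx => by rw [if_neg fun e => hx (Units.ext e), zero_mul])
      (by simp), if_pos rfl, if_pos, sq]
    rw [← h, mul_comm, Units.inv_mul_cancel_left]
  · refine sum_eq_zero fun x _ => ?_
    split_ifs with h1 h2
    · exact absurd (by rw [← h1, ← h2, mul_comm, Units.inv_mul_cancel_right]) h
    all_goals simp

theorem tot (c : (ZMod Q)ˣ) (s₁ L₁ s₂ L₂ : ℕ) :
    ∑ h : ZMod Q, ∑ k : ZMod Q, FF Q s₁ L₁ h * FF Q s₂ L₂ k * KS Q h (k * c) =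
      (Q : ℂ) ^ 2 * (((range L₁ ×ˢ range L₂).filter fun x =>
        ((s₁ + x.1 : ℕ) : ZMod Q) * ((s₂ + x.2 : ℕ) : ZMod Q) = c).card : ℂ) := by
  rw [card_filter, sum_product]
  push_cast
  simp only [mul_sum, mul_ite, mul_one, mul_zero, ← Nat.cast_add, ← pt, FF, sum_mul_sum, sum_mul]
  rw [sum_comm (s := range L₁)]
  symm
  simp only [sum_comm (s := range L₁) (t := (univ : Finset (ZMod Q))),
    sum_comm (s := range L₂) (t := (univ : Finset (ZMod Q)))]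

theorem ff0 (s L : ℕ) : FF Q s L 0 = L := by simp [FF]

theorem ks0 : KS Q 0 0 = Q.totient := by
  simp [KS, ZMod.card_units_eq_totient]

end HYPx

open HYPx in
theorem hyp (h1 : KB) (h2 : FT) : HYP := by
  intro Q _ hQ c s₁ L₁ s₂ L₂
  have q0 : (0 : ℝ) < Q := Nat.cast_pos.2 (NeZero.pos Q)
  have b0 : 0 ≤ BB Q := Real.rpow_nonneg (mul_nonneg q0.le (Nat.cast_nonneg _)) _
  have a0 : 0 ≤ Q * AA Q := le_trans (sum_nonneg fun _ _ => by positivity) (h2 Q 0 0)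
  have f2 : ∑ k ∈ (univ : Finset (ZMod Q)).erase 0, ‖FF Q s₂ L₂ k‖ ≤ Q * AA Q :=
    le_trans (sum_le_sum fun k _ => le_mul_of_one_le_right (norm_nonneg _)
      (Nat.one_le_cast.2 (Nat.gcd_pos_of_pos_right _ (NeZero.pos Q)))) (h2 Q s₂ L₂)
  have e := tot c s₁ L₁ s₂ L₂
  generalize ((range L₁ ×ˢ range L₂).filter fun x =>
    ((s₁ + x.1 : ℕ) : ZMod Q) * ((s₂ + x.2 : ℕ) : ZMod Q) = c).card = N at e ⊢
  rw [← add_sum_erase _ _ (mem_univ 0), ← add_sum_erase _ _ (mem_univ 0), ff0, ff0, zero_mul,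
    ks0] at e
  have n1 : ‖∑ k ∈ (univ : Finset (ZMod Q)).erase 0, (L₁ : ℂ) * FF Q s₂ L₂ k * KS Q 0 (k * c)‖ ≤
      L₁ * BB Q * (Q * AA Q) := by
    refine (norm_sum_le _ _).trans (le_trans ?_
      (mul_le_mul_of_nonneg_left (h2 Q s₂ L₂) (by positivity)))
    rw [mul_sum]
    refine sum_le_sum fun k _ => ?_
    rw [norm_mul, norm_mul, Complex.norm_natCast]
    refine (mul_le_mul_of_nonneg_left ((h1 Q hQ 0 k).2 c) (by positivity)).trans_eq ?_
    ring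
  have n2 : ‖∑ h ∈ (univ : Finset (ZMod Q)).erase 0, ∑ k : ZMod Q,
      FF Q s₁ L₁ h * FF Q s₂ L₂ k * KS Q h (k * c)‖ ≤ (L₂ + Q * AA Q) * BB Q * (Q * AA Q) := by
    refine (norm_sum_le _ _).trans (le_trans ?_
      (mul_le_mul_of_nonneg_left (h2 Q s₁ L₁) (by positivity)))
    rw [mul_sum]
    refine sum_le_sum fun h _ => (norm_sum_le _ _).trans ?_
    have f3 : ∑ k : ZMod Q, ‖FF Q s₂ L₂ k‖ ≤ L₂ + Q * AA Q := by
      rw [← add_sum_erase _ _ (mem_univ 0), ff0, Complex.norm_natCast]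
      linarith
    refine le_trans ?_ ((mul_le_mul_of_nonneg_right f3
      (by positivity : 0 ≤ BB Q * (‖FF Q s₁ L₁ h‖ * Nat.gcd h.val Q))).trans_eq (by ring))
    rw [sum_mul]
    refine sum_le_sum fun k _ => ?_
    rw [norm_mul, norm_mul]
    refine (mul_le_mul_of_nonneg_left (h1 Q hQ h (k * c)).1 (by positivity)).trans_eq ?_
    ring
  have n3 : |(Q : ℝ) ^ 2 * N - L₁ * L₂ * Q.totient| ≤
      L₁ * BB Q * (Q * AA Q) + (L₂ + Q * AA Q) * BB Q * (Q * AA Q) := by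
    rw [← Real.norm_eq_abs, ← Complex.norm_real]
    push_cast
    rw [← e, add_assoc, add_sub_cancel_left]
    exact (norm_add_le _ _).trans (add_le_add n1 n2)
  have e2 : (N : ℝ) - (Q.totient : ℝ) * L₁ * L₂ / (Q : ℝ) ^ 2 =
      ((Q : ℝ) ^ 2 * N - L₁ * L₂ * Q.totient) / (Q : ℝ) ^ 2 := by
    field_simp
  rw [e2, abs_div, abs_of_pos (pow_pos q0 2), div_le_iff₀ (pow_pos q0 2)]
  refine n3.trans_eq ?_
  field_simp
  ring

end Pool.Agent.MP_231b06_nt.LP
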