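import Pool.Agent.MP_231b06_nt.LP.Spec

/-! The fourth moment of Kloosterman sums. -/

set_option autoImplicit false

noncomputable section

namespace Pool.Agent.MP_231b06_nt.LP

open Finset Filter Pool.Agent.MP_35c637_nt.OS
open Pool.Agent.MP_a43263_nt.R2 hiding sg

namespace K4x

variable {Q : ℕ} [NeZero Q]

theorem orth (u : ZMod Q) :
    ∑ a : ZMod Q, ZMod.stdAddChar (a * u) = if u = 0 then (Q : ℂ) else 0 := by
  have h := AddChar.sum_mulShift u (ZMod.isPrimitive_stdAddChar Q)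
  rw [h, ZMod.card]
  split_ifs <;> simp

theorem gen {ι : Type} [Fintype ι] (f g : ι → ZMod Q) :
    ∑ a : ZMod Q, ∑ b : ZMod Q, ∑ x : ι, ZMod.stdAddChar (a * f x + b * g x) =
      (Q : ℂ) ^ 2 * (univ.filter fun x => f x = 0 ∧ g x = 0).card := by
  have h : ∀ x : ι, ∑ a : ZMod Q, ∑ b : ZMod Q, ZMod.stdAddChar (a * f x + b * g x) =
      if f x = 0 ∧ g x = 0 then (Q : ℂ) ^ 2 else 0 := fun x => by
    simp only [AddChar.map_add_eq_mul]
    rw [← Finset.sum_mul_sum, orth, orth]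
    by_cases h1 : f x = 0 <;> by_cases h2 : g x = 0 <;> simp [h1, h2, sq]
  calc _ = ∑ a : ZMod Q, ∑ x : ι, ∑ b : ZMod Q, ZMod.stdAddChar (a * f x + b * g x) :=
        Finset.sum_congr rfl fun a _ => Finset.sum_comm
    _ = ∑ x : ι, ∑ a : ZMod Q, ∑ b : ZMod Q, ZMod.stdAddChar (a * f x + b * g x) :=
        Finset.sum_comm
    _ = _ := by
        simp only [h]
        rw [← Finset.sum_filter, Finset.sum_const, nsmul_eq_mul, mul_comm]

theorem four (z : ℂ) :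
    ((‖z‖ ^ 4 : ℝ) : ℂ) = z * (z * ((starRingEnd ℂ) z * (starRingEnd ℂ) z)) := by
  have h := Complex.mul_conj' z
  push_cast
  calc ((‖z‖ : ℂ)) ^ 4 = (‖z‖ : ℂ) ^ 2 * (‖z‖ : ℂ) ^ 2 := by ring
    _ = _ := by rw [← h]; ring

theorem expand {ι : Type} [Fintype ι] (φ : ι → ZMod Q) :
    ((‖∑ x, ZMod.stdAddChar (φ x)‖ ^ 4 : ℝ) : ℂ) =
      ∑ x : ι × ι × ι × ι, ZMod.stdAddChar (φ x.1 + φ x.2.1 - (φ x.2.2.1 + φ x.2.2.2)) := by
  rw [four, map_sum]
  simp only [← AddChar.map_neg_eq_conj, Fintype.sum_prod_type]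
  rw [Finset.sum_mul_sum, Finset.sum_mul]
  refine Finset.sum_congr rfl fun x _ => ?_
  rw [Finset.sum_mul, Finset.mul_sum]
  refine Finset.sum_congr rfl fun y _ => ?_
  rw [Finset.mul_sum, Finset.mul_sum]
  refine Finset.sum_congr rfl fun z _ => ?_
  rw [Finset.mul_sum, Finset.mul_sum]
  refine Finset.sum_congr rfl fun w _ => ?_
  simp only [← AddChar.map_add_eq_mul]
  congr 1
  ring

end K4x

theorem k4 : K4 := by
  intro Q _
  have h := K4x.gen (Q := Q)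
    (fun x : (ZMod Q)ˣ × (ZMod Q)ˣ × (ZMod Q)ˣ × (ZMod Q)ˣ =>
      (x.1 : ZMod Q) + (x.2.1 : ZMod Q) - ((x.2.2.1 : ZMod Q) + (x.2.2.2 : ZMod Q)))
    (fun x => ((x.1⁻¹ : (ZMod Q)ˣ) : ZMod Q) + ((x.2.1⁻¹ : (ZMod Q)ˣ) : ZMod Q) -
      (((x.2.2.1⁻¹ : (ZMod Q)ˣ) : ZMod Q) + ((x.2.2.2⁻¹ : (ZMod Q)ˣ) : ZMod Q)))
  simp only [sub_eq_zero] at h
  apply Complex.ofReal_injective
  rw [Complex.ofReal_sum]
  simp only [Complex.ofReal_sum]
  rw [Complex.ofReal_mul, Complex.ofReal_pow, Complex.ofReal_natCast, Complex.ofReal_natCast, QD,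
    ← h]
  refine Finset.sum_congr rfl fun a _ => Finset.sum_congr rfl fun b _ => ?_
  rw [KS, K4x.expand]
  refine Finset.sum_congr rfl fun x _ => ?_
  congr 1
  ring

end Pool.Agent.MP_231b06_nt.LP
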