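import Pool.Agent.MP_231b06_nt.LP.Spec

/-! Project LP: the bound for Kloosterman sums from the fourth moment. -/

set_option autoImplicit false

noncomputable section

namespace Pool.Agent.MP_231b06_nt.LP

open Finset Filter Pool.Agent.MP_35c637_nt.OS
open Pool.Agent.MP_a43263_nt.R2 hiding sg

namespace KBx

theorem sum_le {α β : Type} [Fintype α] [Fintype β] [DecidableEq β] (f : α → β) (F : β → ℝ)
    (hF : ∀ y, 0 ≤ F y) (g : ℕ) (hg : ∀ y, (univ.filter fun x => f x = y).card ≤ g) :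
    ∑ x, F (f x) ≤ g * ∑ y, F y := by
  rw [← Finset.sum_fiberwise univ f, mul_sum]
  refine sum_le_sum fun y _ => ?_
  rw [sum_congr rfl (g := fun _ => F y) fun x hx => by rw [(mem_filter.1 hx).2], sum_const,
    nsmul_eq_mul]
  exact mul_le_mul_of_nonneg_right (by exact_mod_cast hg y) (hF y)

theorem le_tot (Q : ℕ) (h : 0 < Q) : (Q : ℝ) ≤ Q.totient * ta Q := by
  have h1 : Q ≤ Q.divisors.card * Q.totient := by
    conv_lhs => rw [← Nat.sum_totient Q]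
    exact sum_le_card_nsmul _ _ _ fun d hd => Nat.le_of_dvd (Nat.totient_pos.2 h)
      (Nat.totient_dvd_of_dvd (Nat.dvd_of_mem_divisors hd))
  rw [ta, mul_comm]
  exact_mod_cast h1

variable {Q : ℕ} [NeZero Q]

theorem twist (a b : ZMod Q) (t : (ZMod Q)ˣ) :
    KS Q (a * t) (b * (t⁻¹ : (ZMod Q)ˣ)) = KS Q a b := by
  unfold KS
  refine Fintype.sum_equiv (Equiv.mulLeft t) _ _ fun x => ?_
  congr 1
  simp only [Equiv.coe_mulLeft, mul_inv_rev, Units.val_mul]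
  ring

theorem symm (a b : ZMod Q) : KS Q a b = KS Q b a := by
  unfold KS
  refine Fintype.sum_equiv (Equiv.inv _) _ _ fun x => ?_
  simp only [Equiv.inv_apply, inv_inv, add_comm]

theorem fib (h1 : AN) (a b : ZMod Q) (y : ZMod Q × ZMod Q) :
    (univ.filter fun t : (ZMod Q)ˣ =>
      (a * t, b * (t⁻¹ : (ZMod Q)ˣ)) = y).card ≤ Nat.gcd a.val Q := by
  rcases (univ.filter fun t : (ZMod Q)ˣ =>
    (a * t, b * (t⁻¹ : (ZMod Q)ˣ)) = y).eq_empty_or_nonempty with h | ⟨t0, h⟩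
  · rw [h]
    simp
  refine le_trans (card_le_card_of_injOn (fun t : (ZMod Q)ˣ => (t : ZMod Q) - t0)
    (fun t ht => ?_) fun t _ s _ e => Units.ext (sub_left_injective e)) ((h1 Q).1 a)
  have e1 := congrArg Prod.fst (mem_filter.1 (mem_coe.1 ht)).2
  have e2 := congrArg Prod.fst (mem_filter.1 h).2
  refine mem_coe.2 (mem_filter.2 ⟨mem_univ _, ?_⟩)
  simp only at e1 e2
  rw [mul_sub, e1, e2, sub_self]

theorem one (h1 : AN) (h2 : K4) (h3 : CNT) (ho : Odd Q) (a b : ZMod Q) :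
    ‖KS Q a b‖ ≤ Nat.gcd a.val Q * BB Q := by
  have hQ : 0 < Q := Nat.pos_of_ne_zero (NeZero.ne Q)
  have hQ' : (0 : ℝ) < Q := by exact_mod_cast hQ
  have hg : (1 : ℝ) ≤ Nat.gcd a.val Q := by exact_mod_cast Nat.gcd_pos_of_pos_right _ hQ
  have ht : 0 ≤ ta Q := Nat.cast_nonneg _
  have k1 := sum_le (fun t : (ZMod Q)ˣ => (a * t, b * (t⁻¹ : (ZMod Q)ˣ)))
    (fun y => ‖KS Q y.1 y.2‖ ^ 4) (fun y => by positivity) _ (fib h1 a b)
  simp only [twist, sum_const, card_univ, ZMod.card_units_eq_totient, nsmul_eq_mul] at k1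
  rw [Fintype.sum_prod_type, h2 Q] at k1
  have k2 := h3 Q ho
  have k3 := le_tot Q hQ
  obtain ⟨g, e1⟩ : ∃ g : ℝ, g = Nat.gcd a.val Q := ⟨_, rfl⟩
  obtain ⟨N, e2⟩ : ∃ N : ℝ, N = ‖KS Q a b‖ ^ 4 := ⟨_, rfl⟩
  have hN : 0 ≤ N := by rw [e2]; positivity
  rw [← e1] at k1 hg ⊢
  rw [← e2] at k1
  have g0 : 0 ≤ g := zero_le_one.trans hg
  have k4 : (Q : ℝ) * N ≤ Q * (g * (Q * ta Q) ^ 3) :=
    calc (Q : ℝ) * N ≤ Q.totient * ta Q * N := mul_le_mul_of_nonneg_right k3 hN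
      _ = ta Q * (Q.totient * N) := by ring
      _ ≤ ta Q * (g * ((Q : ℝ) ^ 2 * ((Q : ℝ) ^ 2 * ta Q ^ 2))) :=
        mul_le_mul_of_nonneg_left (k1.trans (by gcongr)) ht
      _ = _ := by ring
  have k5 := le_of_mul_le_mul_left k4 hQ'
  have hB : BB Q ^ 4 = (Q * ta Q) ^ 3 := by
    rw [BB, ← Real.rpow_natCast, ← Real.rpow_mul (by positivity), ← Real.rpow_natCast]
    norm_num
  have hB0 : 0 ≤ BB Q := Real.rpow_nonneg (by positivity) _
  refine le_of_pow_le_pow_left₀ (n := 4) (by norm_num) (by positivity) ?_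
  rw [← e2, mul_pow, hB]
  exact k5.trans (mul_le_mul_of_nonneg_right (le_self_pow₀ hg (by norm_num)) (by positivity))

end KBx

open KBx

theorem kb (h1 : AN) (h2 : K4) (h3 : CNT) : KB := by
  intro Q _ ho a b
  refine ⟨one h1 h2 h3 ho a b, fun c => ?_⟩
  have e := twist b (a * c) c
  rw [Units.mul_inv_cancel_right] at e
  rw [KBx.symm, e]
  exact one h1 h2 h3 ho b _

end Pool.Agent.MP_231b06_nt.LP
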