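import Pool.Agent.MP_231b06_nt.LP.Spec

/-! Row LEV of project LP: level of distribution of the first coordinate in a dyadic box. -/

set_option autoImplicit false

noncomputable section

namespace Pool.Agent.MP_231b06_nt.LP

open Finset Filter Pool.Agent.MP_35c637_nt.OS
open Pool.Agent.MP_a43263_nt.R2 hiding sg

namespace LEVx

theorem cond (Q e : ℕ) [NeZero Q] (he : e.Coprime Q) (b m : ℕ) :
    Q ∣ e * b * m + 1 ↔
      (b : ZMod Q) * (m : ZMod Q) = ((-(ZMod.unitOfCoprime e he)⁻¹ : (ZMod Q)ˣ) : ZMod Q) := by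
  rw [← ZMod.natCast_eq_zero_iff]
  have h1 : (e : ZMod Q) * (((ZMod.unitOfCoprime e he)⁻¹ : (ZMod Q)ˣ) : ZMod Q) = 1 := by
    rw [← ZMod.coe_unitOfCoprime e he]
    exact Units.mul_inv _
  rw [Units.val_neg]
  push_cast
  constructor
  · intro h
    linear_combination (((ZMod.unitOfCoprime e he)⁻¹ : (ZMod Q)ˣ) : ZMod Q) * h -
      ((b : ZMod Q) * (m : ZMod Q)) * h1
  · intro h
    linear_combination (e : ZMod Q) * h - h1

theorem card_eq (Q U M e : ℕ) [NeZero Q] (h1 : 1 ≤ e) (he : e.Coprime Q) :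
    (((Ioc U (2 * U) ×ˢ Icc 1 M).filter fun x : ℕ × ℕ => Q ∣ x.1 * x.2 + 1).filter
      fun x => e ∣ x.1).card =
    ((range (2 * U / e - U / e) ×ˢ range M).filter fun x : ℕ × ℕ =>
      ((U / e + 1 + x.1 : ℕ) : ZMod Q) * ((1 + x.2 : ℕ) : ZMod Q) =
        ((-(ZMod.unitOfCoprime e he)⁻¹ : (ZMod Q)ˣ) : ZMod Q)).card := by
  symm
  have hp : 0 < e := h1
  refine Finset.card_bij (fun x _ => (e * (U / e + 1 + x.1), 1 + x.2)) ?_ ?_ ?_
  · rintro ⟨x, y⟩ hx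
    simp only [mem_filter, mem_product, mem_range] at hx
    obtain ⟨⟨hx1, hx2⟩, hx3⟩ := hx
    simp only [mem_filter, mem_product, mem_Ioc, mem_Icc]
    refine ⟨⟨⟨⟨?_, ?_⟩, ?_, ?_⟩, (cond Q e he _ _).2 hx3⟩, dvd_mul_right _ _⟩
    · have : U / e < U / e + 1 + x := by omega
      rw [Nat.div_lt_iff_lt_mul hp] at this
      rw [mul_comm]
      exact this
    · have : U / e + 1 + x ≤ 2 * U / e := by omega
      rw [Nat.le_div_iff_mul_le hp] at this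
      rw [mul_comm]
      exact this
    · omega
    · omega
  · rintro ⟨x, y⟩ _ ⟨x', y'⟩ _ h
    simp only [Prod.mk.injEq] at h
    obtain ⟨ha, hb⟩ := h
    have := Nat.eq_of_mul_eq_mul_left hp ha
    simp only [Prod.mk.injEq]
    omega
  · rintro ⟨b, m⟩ hb
    simp only [mem_filter, mem_product, mem_Ioc, mem_Icc] at hb
    obtain ⟨⟨⟨⟨ha, hb⟩, hc, hd⟩, hq⟩, ⟨k, rfl⟩⟩ := hb
    have k1 : U / e < k := by
      rw [Nat.div_lt_iff_lt_mul hp, mul_comm]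
      exact ha
    have k2 : k ≤ 2 * U / e := by
      rw [Nat.le_div_iff_mul_le hp, mul_comm]
      exact hb
    have e1 : U / e + 1 + (k - (U / e + 1)) = k := by omega
    have e2 : 1 + (m - 1) = m := by omega
    refine ⟨(k - (U / e + 1), m - 1), ?_, ?_⟩
    · simp only [mem_filter, mem_product, mem_range]
      refine ⟨⟨by omega, by omega⟩, ?_⟩
      rw [e1, e2]
      exact (cond Q e he _ _).1 hq
    · simp only [e1, e2]

theorem fl (n e : ℕ) (h1 : 1 ≤ e) :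
    ((n / e : ℕ) : ℝ) ≤ (n : ℝ) / e ∧ (n : ℝ) / e ≤ ((n / e : ℕ) : ℝ) + 1 := by
  refine ⟨Nat.cast_div_le, ?_⟩
  have hp : (0 : ℝ) < e := by exact_mod_cast h1
  rw [div_le_iff₀ hp]
  have h : n < (n / e + 1) * e := by
    rw [← Nat.div_lt_iff_lt_mul h1]
    omega
  exact_mod_cast h.le

theorem len (U e : ℕ) (h1 : 1 ≤ e) :
    |((2 * U / e - U / e : ℕ) : ℝ) - (U : ℝ) / e| ≤ 1 := by
  have hle : U / e ≤ 2 * U / e := Nat.div_le_div_right (by omega)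
  rw [Nat.cast_sub hle]
  obtain ⟨a1, a2⟩ := fl U e h1
  obtain ⟨b1, b2⟩ := fl (2 * U) e h1
  have h2 : ((2 * U : ℕ) : ℝ) / e = 2 * ((U : ℝ) / e) := by
    push_cast
    ring
  rw [h2] at b1 b2
  rw [abs_le]
  constructor <;> linarith

end LEVx

theorem lev (h : HYP) : LEV := by
  intro Q hQ i e h1 he
  have hQ0 : 0 < Q := hQ.pos
  haveI : NeZero Q := ⟨hQ0.ne'⟩
  have hq : (0 : ℝ) < Q := by exact_mod_cast hQ0
  have hq1 : (1 : ℝ) ≤ Q := by exact_mod_cast hQ0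
  have hH := h Q hQ (-(ZMod.unitOfCoprime e he)⁻¹) (Q * 2 ^ i / e + 1)
    (2 * (Q * 2 ^ i) / e - Q * 2 ^ i / e) 1 (Q / 2 ^ i)
  rw [← LEVx.card_eq Q (Q * 2 ^ i) (Q / 2 ^ i) e h1 he] at hH
  have hl := LEVx.len (Q * 2 ^ i) e h1
  have hB : 0 ≤ BB Q := Real.rpow_nonneg (mul_nonneg hq.le (Nat.cast_nonneg _)) _
  have hA : 0 ≤ AA Q :=
    mul_nonneg (Nat.cast_nonneg _) (add_nonneg zero_le_one (Real.log_nonneg hq1))
  have hL1 : ((2 * (Q * 2 ^ i) / e - Q * 2 ^ i / e : ℕ) : ℝ) / Q ≤ 2 * 2 ^ i := by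
    rw [div_le_iff₀ hq]
    have : 2 * (Q * 2 ^ i) / e - Q * 2 ^ i / e ≤ 2 * 2 ^ i * Q :=
      (Nat.sub_le _ _).trans ((Nat.div_le_self _ _).trans (le_of_eq (by ring)))
    exact_mod_cast this
  have hM : ((Q / 2 ^ i : ℕ) : ℝ) ≤ Q := by exact_mod_cast Nat.div_le_self _ _
  have hL2 : ((Q / 2 ^ i : ℕ) : ℝ) / Q ≤ 1 := (div_le_one hq).2 hM
  have ht : (Q.totient : ℝ) ≤ Q := by exact_mod_cast Nat.totient_le Q
  unfold rm XX BX
  generalize ((2 * (Q * 2 ^ i) / e - Q * 2 ^ i / e : ℕ) : ℝ) = L at hH hl hL1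
  have hM0 : (0 : ℝ) ≤ ((Q / 2 ^ i : ℕ) : ℝ) := Nat.cast_nonneg _
  generalize ((Q / 2 ^ i : ℕ) : ℝ) = M at hH hM hL2 hM0 ⊢
  have hw : (Q.totient : ℝ) * M / (Q : ℝ) ^ 2 ≤ 1 := by
    rw [div_le_one (by positivity), sq]
    exact mul_le_mul ht hM hM0 hq.le
  have hw0 : 0 ≤ (Q.totient : ℝ) * M / (Q : ℝ) ^ 2 := by positivity
  have hd : |(Q.totient : ℝ) * L * M / (Q : ℝ) ^ 2 -
      (Q.totient : ℝ) * (Q * 2 ^ i) * M / (Q : ℝ) ^ 2 / e| ≤ 1 := by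
    have e1 : (Q.totient : ℝ) * L * M / (Q : ℝ) ^ 2 -
        (Q.totient : ℝ) * (Q * 2 ^ i) * M / (Q : ℝ) ^ 2 / e =
        (Q.totient : ℝ) * M / (Q : ℝ) ^ 2 * (L - ((Q * 2 ^ i : ℕ) : ℝ) / e) := by
      push_cast
      ring
    rw [e1, abs_mul, abs_of_nonneg hw0]
    exact mul_le_one₀ hw (abs_nonneg _) hl
  have hr : BB Q * AA Q * (AA Q + L / Q + M / Q) ≤ BB Q * AA Q * (AA Q + 2 * 2 ^ i + 1) :=
    mul_le_mul_of_nonneg_left (by linarith) (mul_nonneg hB hA)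
  refine (abs_sub_le _ ((Q.totient : ℝ) * L * M / (Q : ℝ) ^ 2) _).trans ?_
  linarith

end Pool.Agent.MP_231b06_nt.LP
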