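import Pool.Agent.MP_231b06_nt.LP.Spec

/-! Row MID: the primes of middle size. -/

set_option autoImplicit false

noncomputable section

namespace Pool.Agent.MP_231b06_nt.LP

open Finset Filter Pool.Agent.MP_35c637_nt.OS
open Pool.Agent.MP_a43263_nt.R2 hiding sg

namespace MIDx

theorem dyadic (Q p : ℕ) (h : Q < p) : ∀ I : ℕ, p ≤ Q * 2 ^ I →
    ∃ i < I, Q * 2 ^ i < p ∧ p ≤ 2 * (Q * 2 ^ i) := by
  intro I
  induction I with
  | zero => intro h1; omega
  | succ I ih =>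
    intro h1
    rcases le_or_gt p (Q * 2 ^ I) with h2 | h2
    · obtain ⟨i, hi, h3⟩ := ih h2
      exact ⟨i, by omega, h3⟩
    · refine ⟨I, by omega, h2, ?_⟩
      rw [pow_succ] at h1
      linarith

theorem key (Q t p : ℕ) (hQ : 100 ≤ Q) (ht : t ∈ TT Q) (hp : p ∈ (Q * t - 1).primeFactors) :
    p * ((Q * t - 1) / p) + 1 = Q * t ∧ 1 ≤ (Q * t - 1) / p ∧ t ≤ Q := by
  have h1 := mem_Ioc.1 ht
  have ht1 : 1 ≤ t := by omega
  have h2 : Q ≤ Q * t := Nat.le_mul_of_pos_right _ ht1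
  have h3 := Nat.mul_div_cancel' (Nat.dvd_of_mem_primeFactors hp)
  refine ⟨by omega, ?_, by omega⟩
  rcases Nat.eq_zero_or_pos ((Q * t - 1) / p) with h | h
  · rw [h] at h3
    omega
  · exact h

end MIDx

theorem mid (h : BOX) : MID := by
  obtain ⟨C, hC, hb⟩ := h
  refine ⟨2 * C, by positivity, ?_⟩
  filter_upwards [hb, eventually_ge_atTop 100] with Q hQ h100 hodd I hI
  have hQ1 : (1 : ℝ) < Q := by exact_mod_cast (by omega : 1 < Q)
  have hlog : 0 < Real.log Q := Real.log_pos hQ1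
  set F : ℕ → Finset ℕ :=
    fun t => (Q * t - 1).primeFactors.filter (fun p => Q < p ∧ p ≤ Q * 2 ^ I) with hF
  have h2I : 2 ^ I ≤ Q := le_trans (Nat.le_self_pow (by norm_num) _) hI
  have h1 : ∀ t ∈ TT Q, ∀ p ∈ F t, Real.log p ≤ 2 * Real.log Q := by
    intro t _ p hp
    obtain ⟨_, hp1, hp2⟩ := mem_filter.1 hp
    have h3 : p ≤ Q ^ 2 := hp2.trans (by rw [sq]; exact Nat.mul_le_mul_left _ h2I)
    have h4 : (0 : ℝ) < p := by exact_mod_cast (by omega : 0 < p)
    calc Real.log p ≤ Real.log ((Q : ℝ) ^ 2) := Real.log_le_log h4 (by exact_mod_cast h3)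
      _ = 2 * Real.log Q := by rw [Real.log_pow]; norm_num
  have hc1 : ((TT Q).sigma F).card ≤
      ((range I).biUnion fun i => (BX Q i).filter fun x => x.1.Prime).card := by
    refine card_le_card_of_injOn (fun x : (Σ _ : ℕ, ℕ) => (x.2, (Q * x.1 - 1) / x.2)) ?_ ?_
    · rintro ⟨t, p⟩ hx
      obtain ⟨ht, hp⟩ := mem_sigma.1 (mem_coe.1 hx)
      obtain ⟨hp0, hp1, hp2⟩ := mem_filter.1 hp
      obtain ⟨k1, k2, k3⟩ := MIDx.key Q t p h100 ht hp0
      obtain ⟨i, hi, d1, d2⟩ := MIDx.dyadic Q p hp1 I hp2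
      refine mem_coe.2 (mem_biUnion.2 ⟨i, mem_range.2 hi, mem_filter.2 ⟨mem_filter.2
        ⟨mem_product.2 ⟨mem_Ioc.2 ⟨d1, d2⟩, mem_Icc.2 ⟨k2, ?_⟩⟩, ?_⟩,
        Nat.prime_of_mem_primeFactors hp0⟩⟩)
      · show (Q * t - 1) / p ≤ Q / 2 ^ i
        rw [Nat.le_div_iff_mul_le (by positivity)]
        have e1 : Q * 2 ^ i * ((Q * t - 1) / p) ≤ p * ((Q * t - 1) / p) :=
          Nat.mul_le_mul_right _ d1.le
        have e2 : Q * t ≤ Q * Q := Nat.mul_le_mul_left _ k3
        have e3 : Q * ((Q * t - 1) / p * 2 ^ i) ≤ Q * Q := by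
          calc Q * ((Q * t - 1) / p * 2 ^ i) = Q * 2 ^ i * ((Q * t - 1) / p) := by ring
            _ ≤ Q * Q := by omega
        exact Nat.le_of_mul_le_mul_left e3 (by omega)
      · show Q ∣ p * ((Q * t - 1) / p) + 1
        rw [k1]
        exact dvd_mul_right _ _
    · rintro ⟨t, p⟩ hx ⟨t', p'⟩ hx' he
      obtain ⟨ht, hp⟩ := mem_sigma.1 (mem_coe.1 hx)
      obtain ⟨ht', hp'⟩ := mem_sigma.1 (mem_coe.1 hx')
      obtain ⟨k1, -, -⟩ := MIDx.key Q t p h100 ht (mem_filter.1 hp).1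
      obtain ⟨k1', -, -⟩ := MIDx.key Q t' p' h100 ht' (mem_filter.1 hp').1
      obtain ⟨e1, e2⟩ := Prod.mk.inj he
      dsimp only at e1 e2
      subst e1
      rw [e2, k1'] at k1
      have : t' = t := Nat.eq_of_mul_eq_mul_left (by omega) k1
      rw [this]
  have hc2 : (((TT Q).sigma F).card : ℝ) ≤ I * (C * Q / Real.log Q) := by
    calc (((TT Q).sigma F).card : ℝ)
        ≤ ((∑ i ∈ range I, ((BX Q i).filter fun x => x.1.Prime).card : ℕ) : ℝ) := by
          exact_mod_cast hc1.trans card_biUnion_le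
      _ = ∑ i ∈ range I, (((BX Q i).filter fun x => x.1.Prime).card : ℝ) := by push_cast; rfl
      _ ≤ ∑ _i ∈ range I, C * Q / Real.log Q := by
          refine sum_le_sum fun i hi => hQ hodd i (le_trans ?_ hI)
          exact Nat.pow_le_pow_left
            (Nat.pow_le_pow_right (by norm_num) (mem_range.1 hi).le) _
      _ = I * (C * Q / Real.log Q) := by rw [sum_const, card_range, nsmul_eq_mul]
  calc ∑ t ∈ TT Q, ∑ p ∈ F t, Real.log p ≤ ∑ t ∈ TT Q, ∑ _p ∈ F t, 2 * Real.log Q :=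
        sum_le_sum fun t ht => sum_le_sum fun p hp => h1 t ht p hp
    _ = (((TT Q).sigma F).card : ℝ) * (2 * Real.log Q) := by
        rw [card_sigma]
        push_cast
        rw [sum_mul]
        exact sum_congr rfl fun t _ => by rw [sum_const, nsmul_eq_mul]
    _ ≤ I * (C * Q / Real.log Q) * (2 * Real.log Q) :=
        mul_le_mul_of_nonneg_right hc2 (by positivity)
    _ = 2 * C * I * Q := by field_simp

end Pool.Agent.MP_231b06_nt.LP
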