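import Pool.Agent.MP_231b06_nt.LP.Spec

/-! Project LP: the choice of the sieve level. -/

set_option autoImplicit false

noncomputable section

namespace Pool.Agent.MP_231b06_nt.LP

open Finset Filter Pool.Agent.MP_35c637_nt.OS
open Pool.Agent.MP_a43263_nt.R2 hiding sg

namespace NUMx

theorem rm_le {C u : ℝ} {Q i : ℕ} (C1 : 1 ≤ C) (u1 : 1 ≤ u) (hQ : (Q : ℝ) = u ^ 400)
    (ht : ta Q ≤ C * u ^ 4) (hl : Real.log Q ≤ 400 * u) (hi : (2 ^ i) ^ 20 ≤ Q) :
    rm Q i ≤ (401 * 404 * C ^ 5 + 1) * u ^ 328 := by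
  have t0 : 0 ≤ ta Q := Nat.cast_nonneg _
  have l0 : 0 ≤ Real.log Q := Real.log_natCast_nonneg Q
  have a0 : 0 ≤ AA Q := mul_nonneg t0 (by linarith)
  have a1 : AA Q ≤ 401 * C * u ^ 5 :=
    (mul_le_mul ht (show 1 + Real.log Q ≤ 401 * u by linarith) (by linarith) (by positivity)).trans
      (le_of_eq (by ring))
  have b1 : BB Q ≤ (C * u ^ 101) ^ 3 := by
    have c : (Q : ℝ) * ta Q ≤ (C * u ^ 101) ^ 4 := by
      have d : C ≤ C ^ 4 := le_self_pow₀ C1 (by norm_num)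
      calc (Q : ℝ) * ta Q ≤ u ^ 400 * (C ^ 4 * u ^ 4) := by
            rw [hQ]
            exact mul_le_mul_of_nonneg_left (ht.trans (by gcongr)) (by positivity)
        _ = _ := by ring
    refine (Real.rpow_le_rpow (by positivity) c (by norm_num)).trans (le_of_eq ?_)
    rw [← Real.rpow_natCast, ← Real.rpow_mul (by positivity), ← Real.rpow_natCast]
    norm_num
  have i1 : (2 : ℝ) ^ i ≤ u ^ 20 := by
    refine le_of_pow_le_pow_left₀ (n := 20) (by norm_num) (by positivity) ?_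
    rw [← pow_mul u, ← hQ]
    exact_mod_cast hi
  have u5 : u ^ 5 ≤ u ^ 20 := pow_le_pow_right₀ u1 (by norm_num)
  have u0 : 1 ≤ u ^ 20 := one_le_pow₀ u1
  have cu : u ^ 20 ≤ C * u ^ 20 := le_mul_of_one_le_left (by positivity) C1
  have cu' : C * u ^ 5 ≤ C * u ^ 20 := by gcongr
  have s1 : AA Q + 2 * 2 ^ i + 1 ≤ 404 * C * u ^ 20 := by linarith
  have s2 : BB Q * AA Q * (AA Q + 2 * 2 ^ i + 1) ≤
      (C * u ^ 101) ^ 3 * (401 * C * u ^ 5) * (404 * C * u ^ 20) :=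
    mul_le_mul (mul_le_mul b1 a1 a0 (by positivity)) s1 (by positivity) (by positivity)
  have s3 : (C * u ^ 101) ^ 3 * (401 * C * u ^ 5) * (404 * C * u ^ 20) =
      401 * 404 * C ^ 5 * u ^ 328 := by ring
  have s4 : 1 ≤ u ^ 328 := one_le_pow₀ u1
  rw [rm, add_mul]
  linarith

end NUMx

theorem num : NUM := by
  intro y0
  obtain ⟨C, C1, hC⟩ := MP_abff10_nt.divisor_bound (η := 1 / 100) (by norm_num)
  obtain ⟨K, hK⟩ : ∃ K, K = 401 * 404 * C ^ 5 + 1 := ⟨_, rfl⟩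
  have K0 : 0 < K := by rw [hK]; positivity
  have T : Tendsto (fun Q : ℕ => (Q : ℝ) ^ (1 / 400 : ℝ)) atTop atTop :=
    (tendsto_rpow_atTop (by norm_num)).comp tendsto_natCast_atTop_atTop
  filter_upwards [T.eventually_ge_atTop y0, T.eventually_ge_atTop 3,
    T.eventually_ge_atTop (400 * K), eventually_ge_atTop 1] with Q h1 h2 h3 h4
  have Q0 : (0 : ℝ) ≤ Q := Nat.cast_nonneg _
  have hQ : (Q : ℝ) = ((Q : ℝ) ^ (1 / 400 : ℝ)) ^ 400 := by
    rw [← Real.rpow_natCast, ← Real.rpow_mul Q0]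
    norm_num
  have ht : ta Q ≤ C * ((Q : ℝ) ^ (1 / 400 : ℝ)) ^ 4 := by
    rw [← Real.rpow_natCast, ← Real.rpow_mul Q0]
    refine (hC Q h4).trans (le_of_eq ?_)
    norm_num
  generalize (Q : ℝ) ^ (1 / 400 : ℝ) = u at h1 h2 h3 hQ ht
  have u0 : 0 < u := by linarith
  have u1 : 1 ≤ u := by linarith
  have y1 := Nat.floor_le u0.le
  have y2 := Nat.lt_floor_add_one u
  have lQ : Real.log Q = 400 * Real.log u := by
    rw [hQ, Real.log_pow]
    norm_num
  have lu : 0 < Real.log u := Real.log_pos (by linarith)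
  have hl : Real.log Q ≤ 400 * u := by linarith [Real.log_le_sub_one_of_pos u0]
  refine ⟨⌊u⌋₊, Nat.le_floor h1, ?_, ?_, fun i hi => ?_⟩
  · have : (⌊u⌋₊ : ℝ) ≤ Q := hQ ▸ y1.trans (le_self_pow₀ u1 (by norm_num))
    exact_mod_cast this
  · have a : u ≤ (⌊u⌋₊ : ℝ) ^ 2 := by nlinarith only [y2, h2]
    have b := Real.log_le_log u0 a
    rw [Real.log_pow] at b
    push_cast at b
    linarith
  · have a := NUMx.rm_le C1 u1 hQ ht hl hi
    rw [← hK] at a
    rw [le_div_iff₀ (by linarith)]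
    have b : (⌊u⌋₊ : ℝ) ^ 60 * rm Q i ≤ u ^ 60 * (K * u ^ 328) :=
      (mul_le_mul_of_nonneg_left a (pow_nonneg (Nat.cast_nonneg _) _)).trans
        (mul_le_mul_of_nonneg_right (pow_le_pow_left₀ (Nat.cast_nonneg _) y1 _)
          (mul_nonneg K0.le (pow_nonneg u0.le _)))
    calc _ ≤ u ^ 60 * (K * u ^ 328) * (400 * u) :=
          mul_le_mul b hl (Real.log_natCast_nonneg Q)
            (mul_nonneg (pow_nonneg u0.le _) (mul_nonneg K0.le (pow_nonneg u0.le _)))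
      _ = 400 * K * u ^ 389 := by
          rw [show u ^ 389 = u ^ 60 * u ^ 328 * u by rw [← pow_add, ← pow_succ]]
          generalize u ^ 60 = a
          generalize u ^ 328 = b
          ring
      _ ≤ u ^ 11 * u ^ 389 :=
          mul_le_mul_of_nonneg_right (h3.trans (le_self_pow₀ u1 (by norm_num))) (by positivity)
      _ = Q := by rw [hQ, ← pow_add]

end Pool.Agent.MP_231b06_nt.LP
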