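import Pool.Agent.MP_231b06_nt.LP.Spec

/-! Project LP: the upper bound sieve with level a power of the sieving limit. -/

set_option autoImplicit false

noncomputable section

namespace Pool.Agent.MP_231b06_nt.LP

open Finset Filter Pool.Agent.MP_35c637_nt.OS
open Pool.Agent.MP_a43263_nt.R2 hiding sg

theorem svp (h : SVA) : SV := by
  classical
  obtain ⟨-, ⟨C, hC⟩, -, -, -⟩ := mer
  refine ⟨max 4 ⌈Real.exp (4 * C)⌉₊, le_max_left _ _,
    fun y hy α Ω a P1 X ρ h1 hX hρ hA => ?_⟩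
  have y4 : 4 ≤ y := (le_max_left _ _).trans hy
  have hz0 : (0 : ℝ) < y := by exact_mod_cast (by omega : 0 < y)
  have lz : 0 < Real.log y := Real.log_pos (by exact_mod_cast (by omega : 1 < y))
  have hz1 : 4 * C ≤ Real.log y :=
    (Real.le_log_iff_exp_le hz0).2 (Nat.ceil_le.1 ((le_max_right _ _).trans hy))
  set w : ℕ → ℝ := fun p => 1 / ((p : ℝ) - 1) with hw
  have hp : ∀ p ∈ P1, p.Prime ∧ 3 < p := fun p hp =>
    ⟨(Mer.mem_pri.1 (h1 hp)).2, (Mer.mem_pri.1 (h1 hp)).1.1⟩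
  have hw1 : ∀ p ∈ P1, 0 ≤ w p ∧ w p ≤ 4 / p ∧ 1 + 1 / (p : ℝ) ≤ 1 + w p := by
    intro p hp'
    have p4 : (4 : ℝ) ≤ p := by exact_mod_cast (hp p hp').2
    have p6 : (0 : ℝ) < p - 1 := by linarith
    simp only [hw]
    refine ⟨by positivity, by rw [div_le_div_iff₀ p6 (by linarith)]; linarith, ?_⟩
    gcongr
    linarith
  have k1 := h α Ω a P1 (P1.powerset.filter fun A => ∏ p ∈ A, p ≤ y ^ 10) X ρ (y ^ 10)
    (fun p h => (hp p h).1) hX hρ
    (mem_filter.2 ⟨empty_mem_powerset _, by simpa using Nat.one_le_pow 10 y (by omega)⟩)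
    (fun A hA => ⟨mem_powerset.1 (mem_filter.1 hA).1, (mem_filter.1 hA).2⟩)
    fun A b1 b2 => hA A b1 (by rwa [← pow_mul] at b2)
  have k2 := (pm P1 w fun p hp => (hw1 p hp).1).1 (fun p => Real.log p) (10 * Real.log y)
    fun p _ => Real.log_natCast_nonneg p
  have k3 : ∑ p ∈ P1, Real.log p * w p ≤ 5 * Real.log y := by
    have a1 := hC 3 y (by omega)
    have a2 : ∑ p ∈ P1, Real.log p / p ≤ ∑ p ∈ pri 3 y, Real.log p / p :=
      sum_le_sum_of_subset_of_nonneg h1 fun p _ _ =>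
        div_nonneg (Real.log_natCast_nonneg p) (Nat.cast_nonneg p)
    refine (sum_le_sum fun p hp => mul_le_mul_of_nonneg_left (hw1 p hp).2.1
      (Real.log_natCast_nonneg p)).trans ?_
    rw [sum_congr rfl (g := fun p : ℕ => 4 * (Real.log p / p)) fun p _ => by ring, ← mul_sum]
    linarith
  have k4 : E P1 ≤ ∏ p ∈ P1, (1 + w p) :=
    prod_le_prod (fun p _ => by positivity) fun p hp => (hw1 p hp).2.2
  have k0 : 0 < E P1 := E_pos _
  have k5 : (∏ p ∈ P1, (1 + w p)) / 2 ≤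
      ∑ A ∈ P1.powerset.filter (fun A => ∏ p ∈ A, p ≤ y ^ 10), ∏ p ∈ A, w p := by
    have e1 := sum_filter_add_sum_filter_not P1.powerset (fun A => ∏ p ∈ A, p ≤ y ^ 10)
      fun A => ∏ p ∈ A, w p
    rw [← prod_one_add] at e1
    have e2 : P1.powerset.filter (fun A => ¬∏ p ∈ A, p ≤ y ^ 10) =
        P1.powerset.filter fun A => 10 * Real.log y < ∑ p ∈ A, Real.log (p : ℕ) := by
      refine filter_congr fun A hA => ?_
      have e3 : ∀ p ∈ A, (0 : ℝ) < p := fun p hp' => by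
        exact_mod_cast (hp p (mem_powerset.1 hA hp')).1.pos
      rw [← Real.log_prod fun p hp' => (e3 p hp').ne', not_le,
        show (10 : ℝ) * Real.log y = Real.log (y ^ 10) by simp,
        Real.log_lt_log_iff (by positivity) (prod_pos e3), ← Nat.cast_prod, ← Nat.cast_pow,
        Nat.cast_lt]
    rw [e2] at e1
    have e3 := k2.trans (mul_le_mul_of_nonneg_right k3 (k0.le.trans k4))
    nlinarith
  refine k1.trans (add_le_add ?_ (le_of_eq (by push_cast; ring)))
  refine (div_le_div_of_nonneg_left hX (half_pos k0)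
    (le_trans (by linarith) k5)).trans (le_of_eq ?_)
  field_simp

end Pool.Agent.MP_231b06_nt.LP

end
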