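import Pool.Agent.MP_231b06_nt.LP.Spec

/-! Project LP: the upper bound sieve of Selberg with a uniform remainder. -/

set_option autoImplicit false

noncomputable section

namespace Pool.Agent.MP_231b06_nt.LP

open Finset Filter Pool.Agent.MP_35c637_nt.OS
open Pool.Agent.MP_a43263_nt.R2 hiding sg

namespace SVAx

theorem ind_prod {T : Finset ℕ} (hT : ∀ p ∈ T, p.Prime) (n : ℕ) :
    ∏ p ∈ T, (if p ∣ n then (1 : ℝ) else 0) = if (∏ p ∈ T, p) ∣ n then 1 else 0 := by
  split_ifs with h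
  · exact prod_eq_one fun p hp => if_pos ((dvd_prod_of_mem (fun p : ℕ => p) hp).trans h)
  · obtain ⟨p, hp, hn⟩ : ∃ p ∈ T, ¬ p ∣ n := by
      by_contra hc
      push Not at hc
      exact h (Finset.prod_primes_dvd n (fun p hp => (hT p hp).prime) hc)
    exact prod_eq_zero hp (if_neg hn)

theorem mix {α : Type} (Ω : Finset α) (a : α → ℕ) (A : Finset ℕ) (X ρ : ℝ)
    (hA : ∀ p ∈ A, p.Prime) (hρ : 0 ≤ ρ)
    (h : ∀ T ⊆ A, |((Ω.filter fun ω => ∏ p ∈ T, p ∣ a ω).card : ℝ) - X / (∏ p ∈ T, p : ℕ)| ≤ ρ)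
    (al be : ℕ → ℝ) (hal : ∀ p ∈ A, |al p| ≤ 1) (hbe : ∀ p ∈ A, |be p| ≤ 1) :
    |∑ ω ∈ Ω, ∏ p ∈ A, (be p * (if p ∣ a ω then (1 : ℝ) else 0) + al p) -
      X * ∏ p ∈ A, (be p * (1 / (p : ℝ)) + al p)| ≤ (∏ p ∈ A, p : ℕ) * ρ := by
  have e1 : ∑ ω ∈ Ω, ∏ p ∈ A, (be p * (if p ∣ a ω then (1 : ℝ) else 0) + al p) =
      ∑ T ∈ A.powerset, ((∏ p ∈ T, be p) * ∏ p ∈ A \ T, al p) *
        ((Ω.filter fun ω => ∏ p ∈ T, p ∣ a ω).card : ℝ) := by
    simp only [prod_add]
    rw [sum_comm]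
    refine sum_congr rfl fun T hT => ?_
    rw [← sum_boole, mul_sum]
    refine sum_congr rfl fun ω _ => ?_
    rw [prod_mul_distrib, ind_prod (fun p hp => hA p (mem_powerset.1 hT hp))]
    ring
  have e2 : X * ∏ p ∈ A, (be p * (1 / (p : ℝ)) + al p) =
      ∑ T ∈ A.powerset, ((∏ p ∈ T, be p) * ∏ p ∈ A \ T, al p) * (X / (∏ p ∈ T, p : ℕ)) := by
    rw [prod_add, mul_sum]
    refine sum_congr rfl fun T _ => ?_
    rw [prod_mul_distrib, prod_div_distrib, prod_const_one, Nat.cast_prod]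
    ring
  rw [e1, e2, ← sum_sub_distrib]
  refine (abs_sum_le_sum_abs _ _).trans ?_
  refine (sum_le_card_nsmul _ _ ρ fun T hT => ?_).trans ?_
  · have hT' := mem_powerset.1 hT
    rw [← mul_sub, abs_mul, abs_mul, abs_prod, abs_prod]
    have h1 : ∏ p ∈ T, |be p| ≤ 1 :=
      prod_le_one (fun _ _ => abs_nonneg _) fun p hp => hbe p (hT' hp)
    have h2 : ∏ p ∈ A \ T, |al p| ≤ 1 :=
      prod_le_one (fun _ _ => abs_nonneg _) fun p hp => hal p (sdiff_subset hp)
    have h3 : (∏ p ∈ T, |be p|) * ∏ p ∈ A \ T, |al p| ≤ 1 :=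
      mul_le_one₀ h1 (prod_nonneg fun _ _ => abs_nonneg _) h2
    calc _ ≤ 1 * ρ := mul_le_mul h3 (h T hT') (abs_nonneg _) zero_le_one
      _ = ρ := one_mul ρ
  · rw [card_powerset, nsmul_eq_mul]
    refine mul_le_mul_of_nonneg_right (Nat.cast_le.2 ?_) hρ
    rw [← prod_const]
    exact prod_le_prod' fun p hp => (hA p hp).two_le

end SVAx

open SVAx in
theorem sva : SVA := by
  intro α Ω a P Q X ρ R hP hX hρ h0 hQ hrem
  let ν : ℕ → ℝ := fun p => 1 / (p : ℝ)
  let φ : ℕ → α → ℝ := fun p n => (if p ∣ a n then 1 else 0) - ν p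
  let lam : Finset ℕ → ℝ := fun q => ∏ p ∈ q, -(1 - ν p)⁻¹
  let g : Finset ℕ → ℝ := fun q => ∏ p ∈ q, 1 / ((p : ℝ) - 1)
  have hp2 : ∀ p ∈ P, (2 : ℝ) ≤ p := fun p hp => by exact_mod_cast (hP p hp).two_le
  have hν : ∀ p ∈ P, 0 ≤ ν p ∧ ν p ≤ 1 / 2 := fun p hp =>
    ⟨by positivity, one_div_le_one_div_of_le (by norm_num) (hp2 p hp)⟩
  have hg1 : ∀ p ∈ P, -(1 - ν p)⁻¹ * -ν p = 1 / ((p : ℝ) - 1) := by
    intro p hp
    have h1 : (p : ℝ) ≠ 0 := by linarith [hp2 p hp]
    have h2 : (p : ℝ) - 1 ≠ 0 := by linarith [hp2 p hp]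
    simp only [ν]
    field_simp
  have hlam : ∀ q ∈ Q, |lam q| ≤ R := by
    intro q hq
    have h1 : ((∏ p ∈ q, p : ℕ) : ℝ) ≤ R := by exact_mod_cast (hQ q hq).2
    refine le_trans ?_ h1
    rw [abs_prod, Nat.cast_prod]
    refine prod_le_prod (fun _ _ => abs_nonneg _) fun p hp => ?_
    have hpP := (hQ q hq).1 hp
    have h2 := hν p hpP
    have h3 := hp2 p hpP
    rw [abs_neg, abs_inv, abs_of_pos (by linarith [h2.2])]
    refine le_trans ?_ h3
    rw [inv_le_comm₀ (by linarith [h2.2]) (by norm_num)]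
    linarith [h2.2]
  have hcard : (Q.card : ℝ) ≤ R := by
    have : Q.card ≤ (Icc 1 R).card := by
      refine card_le_card_of_injOn (fun q => ∏ p ∈ q, p) (fun q hq => ?_) fun q hq q' hq' e => ?_
      · exact mem_coe.2 (mem_Icc.2 ⟨prod_pos fun p hp => (hP p ((hQ q hq).1 hp)).pos, (hQ q hq).2⟩)
      · rw [← Nat.primeFactors_prod fun p hp => hP p ((hQ q hq).1 hp),
          ← Nat.primeFactors_prod fun p hp => hP p ((hQ q' hq').1 hp)]
        exact congrArg Nat.primeFactors e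
    simpa using this
  have hpair : ∀ q ∈ Q, ∀ q' ∈ Q,
      lam q * lam q' * ∑ n ∈ Ω, (∏ p ∈ q, φ p n) * ∏ p ∈ q', φ p n ≤
        (if q = q' then X * g q else 0) + (R : ℝ) ^ 4 * ρ := by
    intro q hq q' hq'
    have hs : q ∪ q' ⊆ P := union_subset (hQ q hq).1 (hQ q' hq').1
    have e3 : ∏ p ∈ q ∪ q', p ≤ R ^ 2 := by
      rw [sq]
      refine le_trans ?_ (Nat.mul_le_mul (hQ q hq).2 (hQ q' hq').2)
      rw [← prod_union_inter]
      exact Nat.le_mul_of_pos_right _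
        (prod_pos fun p hp => (hP p ((hQ q hq).1 (mem_inter.1 hp).1)).pos)
    let F : ℕ → ℝ → ℝ := fun p t =>
      (if p ∈ q then t - ν p else 1) * if p ∈ q' then t - ν p else 1
    have h1 := mix Ω a (q ∪ q') X ρ (fun p hp => hP p (hs hp)) hρ
      (fun T hT => hrem T (hT.trans hs)
        ((prod_le_prod_of_subset_of_one_le' hT fun p hp _ => (hP p (hs hp)).one_le).trans e3))
      (fun p => F p 0) (fun p => F p 1 - F p 0)
      (fun p hp => by
        obtain ⟨h2, h3⟩ := hν p (hs hp)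
        simp only [F]
        split_ifs <;> rw [abs_le] <;> constructor <;> nlinarith)
      (fun p hp => by
        obtain ⟨h2, h3⟩ := hν p (hs hp)
        simp only [F]
        split_ifs <;> rw [abs_le] <;> constructor <;> nlinarith)
    have e1 : ∀ n, ∏ p ∈ q ∪ q', ((F p 1 - F p 0) * (if p ∣ a n then (1 : ℝ) else 0) + F p 0) =
        (∏ p ∈ q, φ p n) * ∏ p ∈ q', φ p n := by
      intro n
      have : ∀ p, (F p 1 - F p 0) * (if p ∣ a n then (1 : ℝ) else 0) + F p 0 =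
          (if p ∈ q then φ p n else 1) * if p ∈ q' then φ p n else 1 := by
        intro p
        by_cases hd : p ∣ a n
        · simp only [F, φ, if_pos hd]
          ring
        · simp only [F, φ, if_neg hd]
          ring
      simp only [this, prod_mul_distrib, prod_ite_mem, inter_eq_right.2 subset_union_left,
        inter_eq_right.2 subset_union_right]
    have e2 : lam q * lam q' *
        (X * ∏ p ∈ q ∪ q', ((F p 1 - F p 0) * (1 / (p : ℝ)) + F p 0)) =
        if q = q' then X * g q else 0 := by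
      by_cases e : q = q'
      · rw [if_pos e]
        subst e
        have : ∏ p ∈ q ∪ q, ((F p 1 - F p 0) * (1 / (p : ℝ)) + F p 0) =
            ∏ p ∈ q, ν p * (1 - ν p) := by
          rw [union_self]
          refine prod_congr rfl fun p hp => ?_
          simp only [F, if_pos hp, ν]
          ring
        rw [this, mul_left_comm]
        congr 1
        simp only [lam, g, ← prod_mul_distrib]
        refine prod_congr rfl fun p hp => ?_
        have h2 : 1 - ν p ≠ 0 := by linarith [(hν p ((hQ q hq).1 hp)).2]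
        rw [← hg1 p ((hQ q hq).1 hp)]
        field_simp
      · rw [if_neg e]
        obtain ⟨p, hp⟩ : ∃ p, ¬ (p ∈ q ↔ p ∈ q') := by
          by_contra hc
          push Not at hc
          exact e (Finset.ext hc)
        have hm : p ∈ q ∪ q' := by
          rw [mem_union]
          tauto
        rw [prod_eq_zero hm, mul_zero, mul_zero]
        by_cases h2 : p ∈ q
        · have h3 : p ∉ q' := fun h => hp ⟨fun _ => h, fun _ => h2⟩
          simp only [F, if_pos h2, if_neg h3, ν]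
          ring
        · have h3 : p ∈ q' := (mem_union.1 hm).resolve_left h2
          simp only [F, if_neg h2, if_pos h3, ν]
          ring
    have e4 : ((∏ p ∈ q ∪ q', p : ℕ) : ℝ) ≤ (R : ℝ) ^ 2 := by exact_mod_cast e3
    simp only [e1] at h1
    rw [← e2, ← sub_le_iff_le_add', ← mul_sub]
    refine (le_abs_self _).trans ?_
    rw [abs_mul, abs_mul]
    calc _ ≤ (R : ℝ) * R * ((R : ℝ) ^ 2 * ρ) :=
          mul_le_mul (mul_le_mul (hlam q hq) (hlam q' hq') (abs_nonneg _) (Nat.cast_nonneg _))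
            (h1.trans (mul_le_mul_of_nonneg_right e4 hρ)) (abs_nonneg _) (by positivity)
      _ = _ := by ring
  have hg0 : ∀ q ∈ Q, 0 ≤ g q := fun q hq => prod_nonneg fun p hp =>
    div_nonneg zero_le_one (by linarith [hp2 p ((hQ q hq).1 hp)])
  have hG : 1 ≤ ∑ q ∈ Q, g q := by
    have := single_le_sum hg0 h0
    simpa [g] using this
  have hsq : ∑ n ∈ Ω, (∑ q ∈ Q, lam q * ∏ p ∈ q, φ p n) ^ 2 ≤
      X * ∑ q ∈ Q, g q + (R : ℝ) ^ 6 * ρ := by
    have e : ∑ n ∈ Ω, (∑ q ∈ Q, lam q * ∏ p ∈ q, φ p n) ^ 2 =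
        ∑ q ∈ Q, ∑ q' ∈ Q, lam q * lam q' *
          ∑ n ∈ Ω, (∏ p ∈ q, φ p n) * ∏ p ∈ q', φ p n := by
      simp only [sq, sum_mul_sum]
      simp only [mul_sum]
      rw [sum_comm]
      refine sum_congr rfl fun q _ => ?_
      rw [sum_comm]
      exact sum_congr rfl fun q' _ => sum_congr rfl fun n _ => by ring
    rw [e]
    refine (sum_le_sum fun q hq => sum_le_sum fun q' hq' => hpair q hq q' hq').trans ?_
    simp only [sum_add_distrib, sum_const, nsmul_eq_mul]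
    rw [mul_sum]
    refine add_le_add (le_of_eq (sum_congr rfl fun q hq => by rw [sum_ite_eq, if_pos hq])) ?_
    calc (Q.card : ℝ) * (Q.card * ((R : ℝ) ^ 4 * ρ)) ≤ R * (R * ((R : ℝ) ^ 4 * ρ)) := by gcongr
      _ = _ := by ring
  have hlow : ((Ω.filter fun n => ∀ p ∈ P, ¬ p ∣ a n).card : ℝ) *
      (∑ q ∈ Q, g q) ^ 2 ≤ ∑ n ∈ Ω, (∑ q ∈ Q, lam q * ∏ p ∈ q, φ p n) ^ 2 := by
    refine le_trans (le_of_eq ?_) (sum_le_sum_of_subset_of_nonneg
      (filter_subset (fun n => ∀ p ∈ P, ¬ p ∣ a n) _) fun _ _ _ => sq_nonneg _)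
    rw [← nsmul_eq_mul, ← sum_const]
    refine sum_congr rfl fun n hn => ?_
    congr 1
    refine sum_congr rfl fun q hq => ?_
    simp only [lam, g, ← prod_mul_distrib]
    refine prod_congr rfl fun p hp => ?_
    have hpP := (hQ q hq).1 hp
    rw [← hg1 p hpP]
    simp only [φ, if_neg ((mem_filter.1 hn).2 p hpP), zero_sub]
  have hfin := hlow.trans hsq
  change _ ≤ X / (∑ q ∈ Q, g q) + _
  generalize ∑ q ∈ Q, g q = G at hG hfin ⊢
  generalize ((Ω.filter fun n => ∀ p ∈ P, ¬ p ∣ a n).card : ℝ) = c at hfin ⊢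
  have hG0 : 0 < G := by linarith
  have hR : 0 ≤ (R : ℝ) ^ 6 * ρ := by positivity
  generalize (R : ℝ) ^ 6 * ρ = W at hR hfin ⊢
  refine le_of_mul_le_mul_right ?_ (pow_pos hG0 2)
  have e : (X / G + W) * G ^ 2 = X * G + W * G ^ 2 := by
    field_simp
  rw [e]
  have : W * 1 ≤ W * G ^ 2 := mul_le_mul_of_nonneg_left (one_le_pow₀ hG) hR
  linarith

end Pool.Agent.MP_231b06_nt.LP
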