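import Mathlib
import Pool.Agent.MP_35c637_nt.os.Sv
import Pool.Agent.MP_abff10_nt.Rep

/-! Project LP: numbers `Q t - 1` with `t < Q` that have a prime factor above a power of `Q` with
exponent greater than one. Definitions and statements of the rows. -/

set_option autoImplicit false

noncomputable section

namespace Pool.Agent.MP_231b06_nt.LP

open Finset Filter Pool.Agent.MP_35c637_nt.OS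
open Pool.Agent.MP_a43263_nt.R2 hiding sg

/-- the number of divisors -/
def ta (Q : ℕ) : ℝ := Q.divisors.card

def BB (Q : ℕ) : ℝ := ((Q : ℝ) * ta Q) ^ (3 / 4 : ℝ)

def AA (Q : ℕ) : ℝ := ta Q * (1 + Real.log Q)

/-- Kloosterman sum -/
def KS (Q : ℕ) [NeZero Q] (a b : ZMod Q) : ℂ :=
  ∑ x : (ZMod Q)ˣ, ZMod.stdAddChar (a * (x : ZMod Q) + b * ((x⁻¹ : (ZMod Q)ˣ) : ZMod Q))

/-- Fourier transform of an interval -/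
def FF (Q : ℕ) [NeZero Q] (s L : ℕ) (h : ZMod Q) : ℂ :=
  ∑ i ∈ range L, ZMod.stdAddChar (-(h * ((s + i : ℕ) : ZMod Q)))

/-- the quadruples counted by the fourth moment -/
def QD (Q : ℕ) [NeZero Q] : Finset ((ZMod Q)ˣ × (ZMod Q)ˣ × (ZMod Q)ˣ × (ZMod Q)ˣ) :=
  univ.filter fun x =>
    (x.1 : ZMod Q) + (x.2.1 : ZMod Q) = (x.2.2.1 : ZMod Q) + (x.2.2.2 : ZMod Q) ∧
    ((x.1⁻¹ : (ZMod Q)ˣ) : ZMod Q) + ((x.2.1⁻¹ : (ZMod Q)ˣ) : ZMod Q) =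
      ((x.2.2.1⁻¹ : (ZMod Q)ˣ) : ZMod Q) + ((x.2.2.2⁻¹ : (ZMod Q)ˣ) : ZMod Q)

/-- the points of the hyperbola in a dyadic box -/
def BX (Q i : ℕ) : Finset (ℕ × ℕ) :=
  (Ioc (Q * 2 ^ i) (2 * (Q * 2 ^ i)) ×ˢ Icc 1 (Q / 2 ^ i)).filter fun x => Q ∣ x.1 * x.2 + 1

/-- expected size of the box -/
def XX (Q i : ℕ) : ℝ := (Q.totient : ℝ) * (Q * 2 ^ i) * (Q / 2 ^ i : ℕ) / (Q : ℝ) ^ 2

/-- the remainder -/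
def rm (Q i : ℕ) : ℝ := BB Q * AA Q * (AA Q + 2 * 2 ^ i + 1) + 1

def TT (Q : ℕ) : Finset ℕ := Ioc (Q / 50) (Q / 10)

/-- annihilators, and the sum of the greatest common divisors -/
def AN : Prop := ∀ (Q : ℕ) [NeZero Q],
  (∀ w : ZMod Q, (univ.filter fun v : ZMod Q => w * v = 0).card ≤ Nat.gcd w.val Q) ∧
  ∑ s : ZMod Q, (Nat.gcd s.val Q : ℝ) ≤ Q * ta Q

def K4 : Prop := ∀ (Q : ℕ) [NeZero Q],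
  ∑ a : ZMod Q, ∑ b : ZMod Q, ‖KS Q a b‖ ^ 4 = (Q : ℝ) ^ 2 * (QD Q).card

def CNT : Prop := ∀ (Q : ℕ) [NeZero Q], Odd Q → ((QD Q).card : ℝ) ≤ (Q : ℝ) ^ 2 * ta Q ^ 2

def KB : Prop := ∀ (Q : ℕ) [NeZero Q], Odd Q → ∀ a b : ZMod Q,
  ‖KS Q a b‖ ≤ Nat.gcd a.val Q * BB Q ∧
  ∀ c : (ZMod Q)ˣ, ‖KS Q a (b * c)‖ ≤ Nat.gcd b.val Q * BB Q

def FT : Prop := ∀ (Q : ℕ) [NeZero Q] (s L : ℕ),
  ∑ h ∈ (univ : Finset (ZMod Q)).erase 0, ‖FF Q s L h‖ * Nat.gcd h.val Q ≤ Q * AA Q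

def HYP : Prop := ∀ (Q : ℕ) [NeZero Q], Odd Q → ∀ (c : (ZMod Q)ˣ) (s₁ L₁ s₂ L₂ : ℕ),
  |(((range L₁ ×ˢ range L₂).filter fun x =>
      ((s₁ + x.1 : ℕ) : ZMod Q) * ((s₂ + x.2 : ℕ) : ZMod Q) = c).card : ℝ) -
    (Q.totient : ℝ) * L₁ * L₂ / (Q : ℝ) ^ 2| ≤
    BB Q * AA Q * (AA Q + (L₁ : ℝ) / Q + (L₂ : ℝ) / Q)

/-- upper bound sieve with a uniform remainder -/
def SVA : Prop := ∀ (α : Type) (Ω : Finset α) (a : α → ℕ) (P : Finset ℕ) (S : Finset (Finset ℕ))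
  (X ρ : ℝ) (R : ℕ), (∀ p ∈ P, p.Prime) → 0 ≤ X → 0 ≤ ρ → ∅ ∈ S →
  (∀ q ∈ S, q ⊆ P ∧ ∏ p ∈ q, p ≤ R) →
  (∀ A ⊆ P, ∏ p ∈ A, p ≤ R ^ 2 →
    |((Ω.filter fun ω => ∏ p ∈ A, p ∣ a ω).card : ℝ) - X / (∏ p ∈ A, p : ℕ)| ≤ ρ) →
  ((Ω.filter fun ω => ∀ p ∈ P, ¬ p ∣ a ω).card : ℝ) ≤
    X / (∑ q ∈ S, ∏ p ∈ q, 1 / ((p : ℝ) - 1)) + (R : ℝ) ^ 6 * ρ

def SV : Prop := ∃ y0 : ℕ, 4 ≤ y0 ∧ ∀ y : ℕ, y0 ≤ y → ∀ (α : Type) (Ω : Finset α) (a : α → ℕ)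
  (P : Finset ℕ) (X ρ : ℝ), P ⊆ pri 3 y → 0 ≤ X → 0 ≤ ρ →
  (∀ A ⊆ P, ∏ p ∈ A, p ≤ y ^ 20 →
    |((Ω.filter fun ω => ∏ p ∈ A, p ∣ a ω).card : ℝ) - X / (∏ p ∈ A, p : ℕ)| ≤ ρ) →
  ((Ω.filter fun ω => ∀ p ∈ P, ¬ p ∣ a ω).card : ℝ) ≤ 2 * X / E P + (y : ℝ) ^ 60 * ρ

def LEV : Prop := ∀ Q : ℕ, Odd Q → ∀ i e : ℕ, 1 ≤ e → e.Coprime Q →
  |(((BX Q i).filter fun x => e ∣ x.1).card : ℝ) - XX Q i / e| ≤ rm Q i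

def NUM : Prop := ∀ y0 : ℕ, ∀ᶠ Q : ℕ in atTop, ∃ y : ℕ, y0 ≤ y ∧ y ≤ Q ∧
  Real.log Q ≤ 800 * Real.log y ∧
  ∀ i : ℕ, (2 ^ i) ^ 20 ≤ Q → (y : ℝ) ^ 60 * rm Q i ≤ Q / Real.log Q

def BOX : Prop := ∃ C : ℝ, 0 < C ∧ ∀ᶠ Q : ℕ in atTop, Odd Q → ∀ i : ℕ, (2 ^ i) ^ 20 ≤ Q →
  (((BX Q i).filter fun x => x.1.Prime).card : ℝ) ≤ C * Q / Real.log Q

def CHB : Prop := ∃ C : ℝ, ∀ Q : ℕ, 100 ≤ Q →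
  ((TT Q).card : ℝ) * Real.log Q - C * Q ≤
    ∑ t ∈ TT Q, ∑ p ∈ (Q * t - 1).primeFactors.filter (fun p => Q < p), Real.log p

def MID : Prop := ∃ C : ℝ, 0 < C ∧ ∀ᶠ Q : ℕ in atTop, Odd Q → ∀ I : ℕ, (2 ^ I) ^ 20 ≤ Q →
  ∑ t ∈ TT Q, ∑ p ∈ (Q * t - 1).primeFactors.filter (fun p => Q < p ∧ p ≤ Q * 2 ^ I),
    Real.log p ≤ C * I * Q

/-- the `t` with a large prime factor -/
def GD (Q K : ℕ) : Finset ℕ :=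
  (TT Q).filter fun t => ((Q * t - 1).primeFactors.filter fun p => Q ^ (K + 1) < p ^ K).Nonempty

def GEN : Prop := ∃ (K : ℕ) (c : ℝ), 0 < K ∧ 0 < c ∧ ∀ᶠ Q : ℕ in atTop, Odd Q →
  c * Q ≤ ((GD Q K).card : ℝ)

end Pool.Agent.MP_231b06_nt.LP
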